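import Pool.Agent.J4H77.TR.One
import Pool.Agent.Y885.WI1

set_option autoImplicit false

/-! The averages of `log p` over the intervals to the right of the points of a translate by a random integer with a thin
large spectrum: one length. -/

namespace Pool.Agent.J4H77.TR

open Finset Filter
open Pool.Agent.H373R2.T7 (lamI lamzI lamz ev_L' ev_log')
open Pool.Agent.W301.SS
open Pool.Agent.TH646.TT
open Pool.Agent.Y885

/-- Markov's inequality -/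
lemma markov1 {ι : Type} (Ω : Finset ι) (p T : ι → ℝ) (hp : ∀ ω ∈ Ω, 0 ≤ p ω) (hT : ∀ ω ∈ Ω, 0 ≤ T ω) (thr D : ℝ) (hthr : 0 < thr)
    (hD : ∑ ω ∈ Ω, p ω * T ω ≤ D) (bad : ι → Prop) [DecidablePred bad] (hbad : ∀ ω ∈ Ω, bad ω → thr ≤ T ω) :
    ∑ ω ∈ Ω, (if bad ω then p ω else 0) ≤ D / thr := by
  rw [le_div_iff₀ hthr, sum_mul]
  refine le_trans (sum_le_sum fun ω hω => ?_) hD
  split_ifs with h
  · exact mul_le_mul_of_nonneg_left (hbad ω hω h) (hp ω hω)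
  · rw [zero_mul]
    exact mul_nonneg (hp ω hω) (hT ω hω)

/-- the scale -/
lemma scale (b e : ℕ) (hb : 2 ≤ b) (he : 1 ≤ e) : ∃ N₀ : ℕ, ∀ N : ℕ, N₀ ≤ N → ∀ K : ℕ, K = Nat.log b N + 1 + e →
    (((e : ℕ) : ℤ) * N ≤ (b : ℤ) ^ K) ∧ ((b ^ K : ℕ) : ℝ) ≤ ((b ^ (e + 1) : ℕ) : ℝ) * N ∧
    Real.log N ≤ Real.log ((b ^ K : ℕ) : ℝ) ∧ Real.log ((b ^ K : ℕ) : ℝ) ≤ 2 * Real.log N ∧
    Real.log N ≤ K * Real.log b := by
  obtain ⟨n1, h1⟩ := ev_L' (Real.log ((b ^ (e + 1) : ℕ) : ℝ))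
  refine ⟨n1 + 2, fun N hN K hK => ?_⟩
  have hL := h1 N (by omega)
  have hb0 : 0 < b := by omega
  have hN0 : (0 : ℝ) < N := by exact_mod_cast (by omega : 0 < N)
  have c1 : N < b ^ (Nat.log b N + 1) := Nat.lt_pow_succ_log_self (by omega) N
  have c2 : b ^ (Nat.log b N) ≤ N := Nat.pow_log_le_self b (by omega)
  have c3 : e ≤ b ^ e := by
    have h3 : e < 2 ^ e := Nat.lt_two_pow_self
    have h4 : 2 ^ e ≤ b ^ e := Nat.pow_le_pow_left hb _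
    omega
  have c4 : e * N ≤ b ^ K := by
    calc e * N ≤ b ^ e * b ^ (Nat.log b N + 1) := Nat.mul_le_mul c3 c1.le
      _ = b ^ K := by rw [← pow_add, hK]; congr 1; ring
  have c5 : b ^ K ≤ b ^ (e + 1) * N := by
    calc b ^ K = b ^ (e + 1) * b ^ (Nat.log b N) := by rw [← pow_add, hK]; congr 1; ring
      _ ≤ _ := Nat.mul_le_mul_left _ c2
  have c6 : N ≤ b ^ K := by
    calc N ≤ b ^ (Nat.log b N + 1) := c1.le
      _ ≤ b ^ K := Nat.pow_le_pow_right hb0 (by omega)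
  have c7 : ((b ^ K : ℕ) : ℝ) ≤ ((b ^ (e + 1) : ℕ) : ℝ) * N := by exact_mod_cast c5
  have hlow : Real.log N ≤ Real.log ((b ^ K : ℕ) : ℝ) := Real.log_le_log hN0 (by exact_mod_cast c6)
  have hS0 : (0 : ℝ) < ((b ^ (e + 1) : ℕ) : ℝ) := by exact_mod_cast Nat.pow_pos hb0
  refine ⟨by exact_mod_cast c4, c7, hlow, ?_, ?_⟩
  · calc Real.log ((b ^ K : ℕ) : ℝ) ≤ Real.log (((b ^ (e + 1) : ℕ) : ℝ) * N) :=
          Real.log_le_log (by exact_mod_cast Nat.pow_pos hb0) c7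
      _ = Real.log ((b ^ (e + 1) : ℕ) : ℝ) + Real.log N := Real.log_mul hS0.ne' hN0.ne'
      _ ≤ _ := by linarith
  · refine hlow.trans (le_of_eq ?_)
    push_cast
    rw [Real.log_pow]

/-- the exponent of the law -/
def VT (C U : ℕ) : ℕ := 2 * (U + (C + 1) + 1) + 6

/-- one length -/
theorem tl_theta (b E B C U : ℕ) (hb : 2 ≤ b) (hE : 1 ≤ E) (ε : ℝ) (hε : 0 < ε) : ∀ c : ℕ, ∃ κ N₀ : ℕ, ∀ N : ℕ, N₀ ≤ N →
    ∀ (ι : Type) (Ω : Finset ι) (p : ι → ℝ) (Y : ι → ℤ), TLaw b E c (VT C U) (Nat.log b N + 1 + (B + 4)) Ω p Y →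
    (∀ ω ∈ Ω, |Y ω| ≤ (B : ℤ) * N) → ∀ A : Finset ℕ, A ⊆ Icc 1 N → (N : ℝ) ≤ A.card * Real.log N ^ C →
    ∀ y : ℕ, Real.log N ^ κ ≤ y → y ≤ 2 * N → ∀ bad : ι → Prop, ∀ _hdec : DecidablePred bad,
    (∀ ω ∈ Ω, bad ω → 1 ≤ Y ω ∧ Y ω ≤ N ∧ ε * A.card < |∑ a ∈ A, av y (a + (Y ω).toNat) - A.card|) →
    ∑ ω ∈ Ω, (if bad ω then p ω else 0) ≤ 1 / Real.log N ^ U := by
  classical
  obtain ⟨U₁, hU₁⟩ : ∃ U₁, U₁ = U + (C + 1) + 1 := ⟨_, rfl⟩
  intro c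
  have hVT : VT C U = 2 * U₁ + 6 := by rw [hU₁]; rfl
  rw [hVT]
  obtain ⟨B', hB'⟩ := tl_dif b E c hb hE U₁
  obtain ⟨K₀, h0⟩ := hB' (B' + 3)
  obtain ⟨κ, n1, h1⟩ := theta_of C (B' + 3) ε hε
  obtain ⟨n2, h2⟩ := scale b (B + 4) hb (by omega)
  obtain ⟨S, hS⟩ : ∃ S : ℝ, S = ((b ^ (B + 4 + 1) : ℕ) : ℝ) := ⟨_, rfl⟩
  obtain ⟨n3, h3⟩ := ev_L' (S * Real.log b ^ U₁ + 2 ^ B' + 2)
  refine ⟨κ, n1 + n2 + n3 + b ^ K₀ + 3, fun N hN ι Ω p Y hlaw hY A hA hAN y hy1 hy2 bad hdec hbad => ?_⟩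
  obtain ⟨K, hK⟩ : ∃ K, K = Nat.log b N + 1 + (B + 4) := ⟨_, rfl⟩
  obtain ⟨s1, s2, s3, s4, s5⟩ := h2 N (by omega) K hK
  rw [← hS] at s2
  rw [← hK] at hlaw
  have hKK : K₀ ≤ K := by
    have : K₀ ≤ Nat.log b N := Nat.le_log_of_pow_le (by omega) (by omega)
    omega
  have hL := h3 N (by omega)
  have hN0 : (0 : ℝ) < N := by exact_mod_cast (by omega : 0 < N)
  have hbr : (2 : ℝ) ≤ b := by exact_mod_cast hb
  have hlb : 0 < Real.log (b : ℝ) := Real.log_pos (by linarith)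
  have hS0 : 0 < S := by rw [hS]; exact_mod_cast Nat.pow_pos (by omega : 0 < b)
  have h1' := h1 N (by omega)
  obtain ⟨L, hLd⟩ : ∃ L, L = Real.log (N : ℝ) := ⟨_, rfl⟩
  rw [← hLd] at s3 s4 s5 hL h1' hAN hy1 ⊢
  have q1 : 0 < S * Real.log b ^ U₁ := by positivity
  have q2 : (0 : ℝ) < 2 ^ B' := by positivity
  have hL1 : 1 ≤ L := by linarith
  have hL0 : 0 < L := by linarith
  obtain ⟨z, hz⟩ : ∃ z : ℕ, z = ⌈L ^ (B' + 1)⌉₊ := ⟨_, rfl⟩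
  have hz1 : L ^ (B' + 1) ≤ z := by rw [hz]; exact Nat.le_ceil _
  have hz2 : (z : ℝ) ≤ L ^ (B' + 2) := by
    have h5 : (z : ℝ) < L ^ (B' + 1) + 1 := by rw [hz]; exact Nat.ceil_lt_add_one (by positivity)
    have h6 : 1 ≤ L ^ (B' + 1) := one_le_pow₀ hL1
    rw [pow_succ L (B' + 1)]
    nlinarith
  have hzl : Real.log ((b ^ K : ℕ) : ℝ) ^ B' ≤ z := by
    refine le_trans ?_ hz1
    calc Real.log ((b ^ K : ℕ) : ℝ) ^ B' ≤ (2 * L) ^ B' := pow_le_pow_left₀ (by linarith) s4 _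
      _ = 2 ^ B' * L ^ B' := mul_pow _ _ _
      _ ≤ L * L ^ B' := mul_le_mul_of_nonneg_right (by linarith) (by positivity)
      _ = L ^ (B' + 1) := by ring
  have hzu : (z : ℝ) ≤ Real.log ((b ^ K : ℕ) : ℝ) ^ (B' + 3) := by
    calc (z : ℝ) ≤ L ^ (B' + 2) := hz2
      _ ≤ L ^ (B' + 3) := pow_le_pow_right₀ hL1 (by omega)
      _ ≤ _ := pow_le_pow_left₀ hL0.le s3 _
  have hyr : (1 : ℝ) ≤ y := (one_le_pow₀ hL1).trans hy1
  have hy : 1 ≤ y := by exact_mod_cast hyr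
  have hN1 : (1 : ℤ) ≤ N := by exact_mod_cast (by omega : 1 ≤ N)
  have hB0 : (0 : ℤ) ≤ (B : ℤ) * N := by positivity
  have s1' : ((B : ℤ) + 4) * N ≤ (b : ℤ) ^ K := by
    push_cast at s1
    exact s1
  have key := h0 K hKK z hzl hzu ι Ω p Y hlaw (3 * N) (by push_cast; nlinarith) (by
    intro ω hω
    have h5 := abs_le.1 (hY ω hω)
    push_cast
    constructor <;> nlinarith [h5.1, h5.2]) 1 one_pos (Gw A y) (fun n _ => Gw_abs A y n hy)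
  have hthr : 0 < (N : ℝ) / L ^ (C + 1) := by positivity
  refine (markov1 Ω p _ hlaw.nonneg (fun _ _ => abs_nonneg _) _ _ hthr key bad ?_).trans ?_
  · intro ω hω hB
    obtain ⟨y1, y2, y3⟩ := hbad ω hω hB
    by_contra hcon
    push Not at hcon
    obtain ⟨m, hm⟩ : ∃ m : ℕ, (m : ℤ) = Y ω := ⟨(Y ω).toNat, by omega⟩
    rw [← hm] at y1 y2 y3 hcon
    rw [Int.toNat_natCast] at y3
    have := h1' z (by
      refine le_trans ?_ hz1
      exact le_self_pow₀ hL1 (by omega)) (hz2.trans (pow_le_pow_right₀ hL1 (by omega))) A hA hAN y hy1 hy2 m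
      (by exact_mod_cast y1) (by exact_mod_cast y2) hcon.le
    linarith
  · rw [one_mul, div_div_eq_mul_div, div_le_div_iff₀ (by positivity) (by positivity), one_mul]
    have hK0 : 0 < (K : ℝ) := by
      by_contra hcon
      have : (K : ℝ) * Real.log b ≤ 0 := mul_nonpos_of_nonpos_of_nonneg (not_lt.1 hcon) hlb.le
      linarith
    have e1 : L ^ U₁ ≤ (K : ℝ) ^ U₁ * Real.log b ^ U₁ := by
      rw [← mul_pow]
      exact pow_le_pow_left₀ hL0.le s5 _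
    have e2 : L ^ U₁ = L ^ U * L ^ (C + 1) * L := by rw [hU₁, pow_succ, pow_add]
    rw [div_mul_eq_mul_div, div_mul_eq_mul_div, div_le_iff₀ (by positivity)]
    have hKU : 0 < (K : ℝ) ^ U₁ := by positivity
    calc ((b ^ K : ℕ) : ℝ) * L ^ (C + 1) * L ^ U ≤ (S * N) * L ^ (C + 1) * L ^ U := by gcongr
      _ = N * (S * (L ^ U * L ^ (C + 1))) := by ring
      _ ≤ N * K ^ U₁ := by
          apply mul_le_mul_of_nonneg_left _ hN0.le
          have e3 : (S * (L ^ U * L ^ (C + 1))) * Real.log b ^ U₁ ≤ (K : ℝ) ^ U₁ * Real.log b ^ U₁ := by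
            refine le_trans ?_ e1
            rw [e2]
            have e4 : S * Real.log b ^ U₁ ≤ L := by linarith
            calc S * (L ^ U * L ^ (C + 1)) * Real.log b ^ U₁ = (L ^ U * L ^ (C + 1)) * (S * Real.log b ^ U₁) := by ring
              _ ≤ (L ^ U * L ^ (C + 1)) * L := mul_le_mul_of_nonneg_left e4 (by positivity)
              _ = _ := by ring
          exact le_of_mul_le_mul_right e3 (by positivity)

end Pool.Agent.J4H77.TR
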