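import Pool.Agent.J4H77.TR.Law
import Pool.Agent.TH646.TT.Grid

set_option autoImplicit false

/-! Primes to the right of the points of a translate by a random integer with a thin large spectrum: all lengths, and many
points. -/

namespace Pool.Agent.J4H77.TR

open Finset Filter
open Pool.Agent.H373R2.T7 (lamI lamzI lamz ev_L' ev_log')
open Pool.Agent.W301.SS
open Pool.Agent.TH646.TT
open Pool.Agent.Y885

/-- from the weights to the numbers of primes (copied from the starting file `Pool.Agent.TH894.LH6`) -/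
lemma det_one (C : ℕ) (ε : ℝ) (hε : 0 < ε) (hε1 : ε ≤ 1) : ∀ᶠ N : ℕ in atTop, ∀ A : Finset ℕ, A ⊆ Icc 1 N →
    (N : ℝ) ≤ A.card * Real.log N ^ C → ∀ b : ℕ, b ≤ N → ∀ y : ℕ, 1 ≤ y → y ≤ 2 * N →
    |∑ a ∈ A, av y (a + b) - A.card| ≤ (ε / 8) * A.card →
    |cs A b y * Real.log N - A.card * y| ≤ ε * (A.card * y) := by
  filter_upwards [ev_conv (ε / 4) (by linarith) (by linarith), ev_L (8 / ε + 1),
    ev_log (C + 1) (16 / ε) (ε / 8) (by positivity), eventually_ge_atTop 16] with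
    N h1 h2 h3 hN16 A hA hAN b hbN y hy hy2 hcon
  obtain ⟨h5, -⟩ := h1
  have hNr : (16 : ℝ) ≤ N := by exact_mod_cast (by omega : 16 ≤ N)
  have hN0 : (0 : ℝ) < N := by linarith
  have hN1 : (1 : ℝ) ≤ N := by linarith
  obtain ⟨ℓ, hℓ⟩ : ∃ ℓ, ℓ = Real.log (N : ℝ) := ⟨_, rfl⟩
  rw [← hℓ] at h2 h3 h5 hAN ⊢
  have hd8 : 0 < 8 / ε := by positivity
  have hℓ1 : 1 ≤ ℓ := by linarith
  have hℓ0 : 0 < ℓ := by linarith
  have hy0 : (0 : ℝ) < y := by exact_mod_cast hy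
  obtain ⟨c, hc⟩ : ∃ c : ℝ, c = A.card := ⟨_, rfl⟩
  rw [← hc] at hAN hcon ⊢
  have hc0 : 0 < c := by
    by_contra hcon
    have h7 : c = 0 := le_antisymm (not_lt.1 hcon) (by rw [hc]; exact Nat.cast_nonneg _)
    rw [h7, zero_mul] at hAN
    linarith
  have hpC : 0 < ℓ ^ C := by positivity
  have k2 : |(∑ a ∈ A, av y (a + b)) * y - c * y| ≤ (ε / 8) * (c * y) := by
    rw [← sub_mul, abs_mul, abs_of_pos hy0]
    calc |∑ a ∈ A, av y (a + b) - c| * y ≤ ((ε / 8) * c) * y :=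
          mul_le_mul_of_nonneg_right hcon hy0.le
      _ = _ := by ring
  have hcy : 0 < c * y := by positivity
  have k3 := cs_low A N b y (fun a ha => (mem_Icc.1 (hA ha)).2) hbN hy hy2 ((1 + ε / 4) * ℓ) h5
  obtain ⟨X, hX⟩ : ∃ X : ℕ, X = ⌈(N : ℝ) ^ (1 - ε / 8)⌉₊ := ⟨_, rfl⟩
  have hX1 : 1 ≤ (N : ℝ) ^ (1 - ε / 8) := Real.one_le_rpow hN1 (by linarith)
  have hX2 : (N : ℝ) ^ (1 - ε / 8) ≤ X := by rw [hX]; exact Nat.le_ceil _
  have hX3 : (X : ℝ) ≤ 2 * (N : ℝ) ^ (1 - ε / 8) := by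
    have := Nat.ceil_lt_add_one (show 0 ≤ (N : ℝ) ^ (1 - ε / 8) by linarith)
    rw [← hX] at this
    linarith
  have hX4 : 1 ≤ X := by
    have : (1 : ℝ) ≤ X := hX1.trans hX2
    exact_mod_cast this
  have hX5 : (1 - ε / 8) * ℓ ≤ Real.log (X : ℝ) := by
    rw [hℓ, ← Real.log_rpow hN0]
    exact Real.log_le_log (by positivity) hX2
  have k4 := cs_up A b y X hy ((1 - ε / 8) * ℓ) (by nlinarith) hX5 hX4
  have k5 : (1 - ε / 8) * ℓ * (X * y) ≤ (ε / 8) * (c * y) := by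
    have e1 : ℓ * X ≤ (ε / 8) * c := by
      have f1 : ℓ * X * ℓ ^ C ≤ (ε / 8) * N := by
        calc ℓ * X * ℓ ^ C ≤ ℓ * (2 * (N : ℝ) ^ (1 - ε / 8)) * ℓ ^ C := by gcongr
          _ = (ε / 8) * ((16 / ε * ℓ ^ (C + 1)) * (N : ℝ) ^ (1 - ε / 8)) := by
              rw [pow_succ]
              field_simp
              ring
          _ ≤ (ε / 8) * ((N : ℝ) ^ (ε / 8) * (N : ℝ) ^ (1 - ε / 8)) := by gcongr
          _ = (ε / 8) * N := by
              rw [← Real.rpow_add hN0]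
              norm_num
      have f2 : (ε / 8) * N ≤ ((ε / 8) * c) * ℓ ^ C := by
        calc (ε / 8) * N ≤ (ε / 8) * (c * ℓ ^ C) := mul_le_mul_of_nonneg_left hAN (by positivity)
          _ = _ := by ring
      exact le_of_mul_le_mul_right (f1.trans f2) hpC
    calc (1 - ε / 8) * ℓ * (X * y) = (1 - ε / 8) * (ℓ * X * y) := by ring
      _ ≤ 1 * (ℓ * X * y) := mul_le_mul_of_nonneg_right (by linarith) (by positivity)
      _ = (ℓ * X) * y := by ring
      _ ≤ ((ε / 8) * c) * y := mul_le_mul_of_nonneg_right e1 hy0.le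
      _ = _ := by ring
  exact conv_fin ε ℓ c y (cs A b y) _ _ hε hε1 hcy k2 k3 k4 k5

/-- all lengths, and many points -/
theorem tl_full (b E B C U : ℕ) (hb : 2 ≤ b) (hE : 1 ≤ E) (ε : ℝ) (hε : 0 < ε) (hε1 : ε ≤ 1 / 4) : ∀ c : ℕ, ∃ κ N₀ : ℕ,
    ∀ N : ℕ, N₀ ≤ N → ∀ (ι : Type) (Ω : Finset ι) (p : ι → ℝ) (Y : ι → ℤ),
    TLaw b E c (VT C (U + 2)) (Nat.log b N + 1 + (B + 4)) Ω p Y → (∀ ω ∈ Ω, |Y ω| ≤ (B : ℤ) * N) → ∀ A : Finset ℕ, A ⊆ Icc 1 N →
    (N : ℝ) ≤ A.card * Real.log N ^ C → ∀ bad : ι → Prop, ∀ _hdec : DecidablePred bad,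
    (∀ ω ∈ Ω, bad ω → 1 ≤ Y ω ∧ Y ω ≤ N ∧ ¬ ∀ y : ℕ, Real.log N ^ κ ≤ y → y ≤ N →
        |cs A (Y ω).toNat y * Real.log N - A.card * y| ≤ ε * (A.card * y) ∧
        (1 / 4 - ε) * A.card ≤ (GG A N (Y ω).toNat y ε).card) →
    ∑ ω ∈ Ω, (if bad ω then p ω else 0) ≤ 1 / Real.log N ^ U := by
  classical
  obtain ⟨η, hη⟩ : ∃ η, η = ε / 32 := ⟨_, rfl⟩
  have hη0 : 0 < η := by rw [hη]; positivity
  have hη1 : η ≤ 1 / 8 := by rw [hη]; linarith
  intro c
  obtain ⟨κ, n0, h0⟩ := tl_theta b E B C (U + 2) hb hE (η / 8) (by positivity) c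
  obtain ⟨n1, h1⟩ := eventually_atTop.1 ((det_one C η hη0 (by linarith)).and ((good_many C ε hε hε1).and
    ((ev_L (1 / η + 2 / Real.log (1 + η) + 8)).and (eventually_ge_atTop 16))))
  have hlr : 0 < Real.log (1 + η) := Real.log_pos (by linarith)
  refine ⟨κ + 1 + (C + 20), n0 + n1, fun N hN ι Ω p Y hlaw hY A hA hAN bad hdec hbad => ?_⟩
  obtain ⟨hdet, hmany, hL, hN16⟩ := h1 N (by omega)
  have hone := h0 N (by omega) ι Ω p Y hlaw hY A hA hAN
  have hNr : (16 : ℝ) ≤ N := by exact_mod_cast hN16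
  have hN0 : (0 : ℝ) < N := by linarith
  have hdet' := hdet A hA hAN
  have hmany' := hmany A hA hAN
  obtain ⟨ℓ, hℓ⟩ : ∃ ℓ, ℓ = Real.log (N : ℝ) := ⟨_, rfl⟩
  rw [← hℓ] at hL hone hdet' hmany' hbad ⊢
  have hd1 : 0 < 1 / η := by positivity
  have hd2 : 0 < 2 / Real.log (1 + η) := by positivity
  have hℓ8 : 8 ≤ ℓ := by linarith
  have hℓ0 : 0 < ℓ := by linarith
  have hp0 := hlaw.nonneg
  obtain ⟨J, hJ⟩ : ∃ J : ℕ, J = ⌊ℓ / Real.log (1 + η)⌋₊ + 2 := ⟨_, rfl⟩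
  obtain ⟨bd, hbd⟩ : ∃ bd : ℕ → ι → Prop, bd = fun j ω => (ℓ ^ κ ≤ (gr η j : ℝ) ∧ gr η j ≤ 2 * N) ∧ 1 ≤ Y ω ∧ Y ω ≤ N ∧
    η / 8 * A.card < |∑ a ∈ A, av (gr η j) (a + (Y ω).toNat) - A.card| := ⟨_, rfl⟩
  have hBB : ∀ j, ∑ ω ∈ Ω, (if bd j ω then p ω else 0) ≤ 1 / ℓ ^ (U + 2) := by
    intro j
    by_cases h : ℓ ^ κ ≤ (gr η j : ℝ) ∧ gr η j ≤ 2 * N
    · apply hone (gr η j) h.1 h.2
      intro ω _ hω
      rw [hbd] at hω
      exact hω.2
    · have h2 : ∀ ω ∈ Ω, (if bd j ω then p ω else 0) = 0 := by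
        intro ω _
        rw [if_neg]
        intro h3
        rw [hbd] at h3
        exact h h3.1
      rw [sum_eq_zero h2]
      positivity
  have hpt : ∀ ω ∈ Ω, (if bad ω then p ω else 0) ≤ ∑ j ∈ range J, (if bd j ω then p ω else 0) := by
    intro ω hω
    have hnn : ∀ j ∈ range J, 0 ≤ (if bd j ω then p ω else 0) := by
      intro j _
      split_ifs
      · exact hp0 ω hω
      · exact le_rfl
    by_cases hB : bad ω
    swap
    · rw [if_neg hB]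
      exact sum_nonneg hnn
    rw [if_pos hB]
    obtain ⟨y1, y2, y3⟩ := hbad ω hω hB
    obtain ⟨m, hm⟩ : ∃ m : ℕ, (m : ℤ) = Y ω := ⟨(Y ω).toNat, by omega⟩
    have hm1 : 1 ≤ m := by omega
    have hmN : m ≤ N := by omega
    by_contra hcon
    apply y3
    rw [← hm, Int.toNat_natCast]
    -- no event of the grid occurs
    have hno : ∀ j < J, ℓ ^ κ ≤ (gr η j : ℝ) → gr η j ≤ 2 * N → |∑ a ∈ A, av (gr η j) (a + m) - A.card| ≤ η / 8 * A.card := by
      intro j hj g1 g2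
      by_contra hcon2
      push Not at hcon2
      apply hcon
      have h5 : bd j ω := by
        rw [hbd]
        refine ⟨⟨g1, g2⟩, y1, y2, ?_⟩
        rw [← hm, Int.toNat_natCast]
        exact hcon2
      calc p ω = (if bd j ω then p ω else 0) := (if_pos h5).symm
        _ ≤ _ := single_le_sum (f := fun j => if bd j ω then p ω else 0) hnn (mem_range.2 hj)
    intro y hyκ hyN
    have hyℓ : ℓ ≤ y := by
      refine le_trans ?_ hyκ
      exact le_self_pow₀ (by linarith) (by omega)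
    have hy0 : (1 : ℝ) ≤ y := by linarith
    obtain ⟨j, g1, g2, g3, g4, g5⟩ := gr_mem hη0 (by linarith) y (by exact_mod_cast hy0) (by linarith)
    have hyK : ℓ ^ κ ≤ (gr η j : ℝ) := by
      refine le_trans ?_ g5
      have h1 : ℓ ^ κ * ℓ ≤ y := by
        rw [← pow_succ]
        exact (pow_le_pow_right₀ (by linarith) (by omega)).trans hyκ
      have h2 : 0 ≤ ℓ ^ κ := by positivity
      have h3 : ℓ ^ κ * 2 ≤ y := by nlinarith
      have h4 : (1 / 2) * (y : ℝ) ≤ (1 - 2 * η) * y := by nlinarith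
      linarith
    have hjJ : j + 1 < J := by
      have h1 : (j : ℝ) ≤ ℓ / Real.log (1 + η) := by
        rw [le_div_iff₀ hlr, ← Real.log_pow, hℓ]
        apply Real.log_le_log (by positivity)
        refine g1.trans ?_
        exact_mod_cast hyN
      have h2 : j ≤ ⌊ℓ / Real.log (1 + η)⌋₊ := Nat.le_floor h1
      omega
    have hg2N : gr η (j + 1) ≤ 2 * N := by
      have h1 : (gr η (j + 1) : ℝ) ≤ 2 * N := by
        refine g4.trans ?_
        have : (y : ℝ) ≤ N := by exact_mod_cast hyN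
        nlinarith
      exact_mod_cast h1
    have hgg : (gr η j : ℝ) ≤ gr η (j + 1) := by exact_mod_cast g2.trans g3
    have hone1 : ∀ i, ℓ ^ κ ≤ (gr η i : ℝ) → 1 ≤ gr η i := by
      intro i hi
      have : (1 : ℝ) ≤ gr η i := (one_le_pow₀ (by linarith)).trans hi
      exact_mod_cast this
    have m1 := hdet' m hmN (gr η j) (hone1 j hyK) (by omega) (by
      have := hno j (by omega) hyK (by omega)
      linarith)
    have m2 := hdet' m hmN (gr η (j + 1)) (hone1 (j + 1) (hyK.trans hgg)) hg2N (by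
      have := hno (j + 1) hjJ (hyK.trans hgg) hg2N
      linarith)
    have m3 := interp A m y (gr η j) (gr η (j + 1)) ℓ η hℓ0 hη0 hη1 g2 g3 g4 g5 m1 m2
    rw [show 8 * η = ε / 4 by rw [hη]; ring] at m3
    have hyC : ℓ ^ (C + 20) ≤ y := (pow_le_pow_right₀ (by linarith) (by omega)).trans hyκ
    have m4 := hmany' m (mem_Icc.2 ⟨hm1, hmN⟩) y hyC m3
    refine ⟨m3.trans ?_, m4⟩
    apply mul_le_mul_of_nonneg_right _ (by positivity)
    linarith
  refine (sum_le_sum hpt).trans ?_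
  rw [sum_comm]
  have h3 : (J : ℝ) ≤ ℓ ^ 2 := by
    have h4 : (J : ℝ) ≤ ℓ / Real.log (1 + η) + 2 := by
      rw [hJ]; push_cast
      have := Nat.floor_le (show 0 ≤ ℓ / Real.log (1 + η) by positivity)
      linarith
    have h5 : 2 / Real.log (1 + η) ≤ ℓ - 8 := by linarith
    have h6 : ℓ / Real.log (1 + η) * 2 ≤ ℓ * (ℓ - 8) := by
      calc ℓ / Real.log (1 + η) * 2 = ℓ * (2 / Real.log (1 + η)) := by ring
        _ ≤ _ := mul_le_mul_of_nonneg_left h5 hℓ0.le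
    nlinarith
  calc ∑ j ∈ range J, ∑ ω ∈ Ω, (if bd j ω then p ω else 0) ≤ ∑ _j ∈ range J, 1 / ℓ ^ (U + 2) := sum_le_sum fun j _ => hBB j
    _ = J * (1 / ℓ ^ (U + 2)) := by rw [sum_const, nsmul_eq_mul, card_range]
    _ ≤ ℓ ^ 2 * (1 / ℓ ^ (U + 2)) := mul_le_mul_of_nonneg_right h3 (by positivity)
    _ = 1 / ℓ ^ U := by
        rw [pow_add]
        field_simp

end Pool.Agent.J4H77.TR
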