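import Pool.Agent.J4H77.TR.Ratio
import Pool.Agent.J4H77.GB.LasNear

set_option autoImplicit false

/-! Primes in the intervals `(x, x + (log x) ^ a]` for the translates of many given sets by the numbers `y ± σ`, where `σ` is the
sum of very few elements of a given set. -/

namespace Pool.Agent.J4H77.TR

open Finset
open Pool.Agent.H373R2.T7 (ev_L' ev_log')
open Pool.Agent.W301.SS
open Pool.Agent.Y885

/-- iterated logarithms of numbers of about the same size -/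
lemma loglog (B : ℕ) : ∃ N₀ : ℕ, ∀ N : ℕ, N₀ ≤ N → Real.log (((B + 2) * N : ℕ) : ℝ) ≤ 2 * Real.log N ∧
    Real.log N ≤ Real.log (((B + 2) * N : ℕ) : ℝ) ∧
    Real.log (Real.log (((B + 2) * N : ℕ) : ℝ)) ^ 2 ≤ 4 * Real.log (Real.log N) ^ 2 := by
  obtain ⟨n1, h1⟩ := ev_L' (Real.log ((B + 2 : ℕ) : ℝ) + 3)
  refine ⟨n1 + 3, fun N hN => ?_⟩
  have hL := h1 N (by omega)
  have hN0 : (0 : ℝ) < N := by exact_mod_cast (by omega : 0 < N)
  have hE : Real.log (((B + 2) * N : ℕ) : ℝ) = Real.log ((B + 2 : ℕ) : ℝ) + Real.log N := by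
    rw [Nat.cast_mul, Real.log_mul (by positivity) hN0.ne']
  have hlB : 0 ≤ Real.log ((B + 2 : ℕ) : ℝ) := Real.log_natCast_nonneg _
  rw [hE]
  obtain ⟨L, hLd⟩ : ∃ L, L = Real.log (N : ℝ) := ⟨_, rfl⟩
  obtain ⟨c, hc⟩ : ∃ c, c = Real.log ((B + 2 : ℕ) : ℝ) := ⟨_, rfl⟩
  rw [← hLd, ← hc] at hL ⊢
  rw [← hc] at hlB
  have hL3 : 3 ≤ L := by linarith
  refine ⟨by linarith, by linarith, ?_⟩
  have h2 : Real.log (c + L) ≤ Real.log (2 * L) := Real.log_le_log (by linarith) (by linarith)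
  rw [Real.log_mul (by norm_num) (by linarith)] at h2
  have h3 : 1 ≤ Real.log L := by
    rw [Real.le_log_iff_exp_le (by linarith)]
    linarith [Real.exp_one_lt_d9]
  have h4 := Real.log_two_lt_d9
  have h5 : 0 ≤ Real.log (c + L) := Real.log_nonneg (by linarith)
  have h6 : Real.log (c + L) ≤ 2 * Real.log L := by linarith
  calc Real.log (c + L) ^ 2 ≤ (2 * Real.log L) ^ 2 := pow_le_pow_left₀ h5 h6 2
    _ = _ := by ring

/-- powers of the iterated logarithm are small -/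
lemma loglog_small (C : ℝ) : ∃ N₀ : ℕ, ∀ N : ℕ, N₀ ≤ N → C * Real.log (Real.log N) ^ 2 ≤ Real.log N := by
  have h1 := (Real.isLittleO_pow_log_id_atTop (n := 2)).comp_tendsto
    (Real.tendsto_log_atTop.comp (tendsto_natCast_atTop_atTop (R := ℝ)))
  have h2 := h1.bound (show (0 : ℝ) < 1 / (|C| + 1) by positivity)
  obtain ⟨N₀, hN₀⟩ := Filter.eventually_atTop.1 h2
  refine ⟨N₀, fun N hN => ?_⟩
  have h3 := hN₀ N hN
  simp only [Function.comp, id, Real.norm_eq_abs] at h3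
  rw [abs_of_nonneg (by positivity : 0 ≤ Real.log (Real.log (N : ℝ)) ^ 2), abs_of_nonneg (Real.log_natCast_nonneg N),
    one_div, inv_mul_eq_div, le_div_iff₀ (by positivity)] at h3
  have h4 : C ≤ |C| + 1 := by linarith [le_abs_self C]
  have h5 : 0 ≤ Real.log (Real.log (N : ℝ)) ^ 2 := by positivity
  nlinarith

theorem las_ratio (l Q C T : ℕ) (hl : 2 ≤ l) (hQ : 1 ≤ Q) : ∃ C₁ : ℝ, ∀ (H B : ℕ) (ε : ℝ), 0 < ε → ε ≤ 1 / 4 →
    ∃ (a₀ : ℝ) (N₀ : ℕ), ∀ D : Set ℕ, (∀ x : ℕ, 1 ≤ x → ∃ a ∈ D, x ≤ a ∧ a ≤ l * x) → ∀ N : ℕ, N₀ ≤ N →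
    ∀ F : Finset (Finset ℕ), (∀ A ∈ F, A ⊆ Icc 1 N ∧ (N : ℝ) ≤ A.card * Real.log N ^ C) → (F.card : ℝ) ≤ Real.log N ^ T →
    ∀ Y : Finset ℕ, (∀ y ∈ Y, N ≤ y ∧ y ≤ B * N) → (Y.card : ℝ) ≤ Real.log N ^ T →
    ∃ S : Finset ℕ, (∀ a ∈ S, a ∈ D ∧ Real.log N ^ H ≤ a ∧ (a : ℝ) ≤ N / Real.log N ^ H) ∧
      (S.card : ℝ) ≤ C₁ * Real.log (Real.log N) ^ 2 ∧ Q ∣ ∑ a ∈ S, a ∧
      ∀ A ∈ F, ∀ y ∈ Y, ∀ v : ℤ, (v = y + ((∑ a ∈ S, a : ℕ) : ℤ) ∨ v = y - ((∑ a ∈ S, a : ℕ) : ℤ)) →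
        ∀ a : ℝ, a₀ ≤ a → Real.log N ^ a ≤ N →
          |∑ x ∈ A, ratio a ((x + v : ℤ) : ℝ) - A.card| ≤ ε * A.card ∧
          (1 / 4 - ε) * A.card ≤ ((A.filter (fun x : ℕ => ε / 2 ≤ ratio a ((x + v : ℤ) : ℝ))).card : ℝ) := by
  classical
  obtain ⟨U, hU⟩ : ∃ U, U = 2 * T + 1 := ⟨_, rfl⟩
  obtain ⟨b, hb, C₀, hC⟩ := las_lawP l Q hl hQ (VT (C + 1) (U + 2))
  refine ⟨4 * |C₀|, fun H B ε hε hε1 => ?_⟩
  obtain ⟨c, N₀, h0⟩ := hC (H + 1) 5
  obtain ⟨κ, K₀, h1⟩ := tl_full b 20 1 (C + 1) U hb (by norm_num) (3 * ε / 4) (by positivity) (by linarith) c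
  obtain ⟨n2, h2⟩ := ratio_of B κ ε hε hε1
  obtain ⟨n3, h3⟩ := loglog B
  obtain ⟨n4, h4⟩ := loglog_small (8 * |C₀| * (B + 2))
  obtain ⟨n5, h5⟩ := ev_L' (B + 6)
  refine ⟨(κ : ℝ) + 1, N₀ + K₀ + n2 + n3 + n4 + n5 + 16, fun D hD N hN F hF hFc Y hY hYc => ?_⟩
  have hN0 : (0 : ℝ) < N := by exact_mod_cast (by omega : 0 < N)
  obtain ⟨l1, l2, l3⟩ := h3 N (by omega)
  have hl4 := h4 N (by omega)
  have hL := h5 N (by omega)
  obtain ⟨N', hN'⟩ : ∃ N', N' = (B + 2) * N := ⟨_, rfl⟩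
  have hNN' : N ≤ N' := by rw [hN']; exact Nat.le_mul_of_pos_left _ (by omega)
  obtain ⟨L, hLd⟩ : ∃ L, L = Real.log (N : ℝ) := ⟨_, rfl⟩
  obtain ⟨L', hL'd⟩ : ∃ L', L' = Real.log (N' : ℝ) := ⟨_, rfl⟩
  rw [← hN', ← hL'd, ← hLd] at l1 l2 l3
  rw [← hLd] at hl4 hL hFc hYc
  have hB0 : (0 : ℝ) ≤ B := Nat.cast_nonneg B
  have hL1 : 1 ≤ L := by linarith
  have hL0 : 0 < L := by linarith
  have hL'0 : 0 < L' := by linarith
  obtain ⟨n, Ω, pr, Sf, g1, g2, g3⟩ := h0 D hD N' (by omega)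
  have hpr : ∀ ω ∈ Ω, 0 ≤ pr := fun ω hω => g2.nonneg ω hω
  have e5 : Nat.log b N' + 1 + 5 = Nat.log b N' + 1 + (1 + 4) := by ring
  rw [e5] at g2
  have hN'r : (N' : ℝ) = (B + 2) * N := by rw [hN']; push_cast; ring
  -- the elements
  have helt : ∀ ω ∈ Ω, ∀ a ∈ Sf ω, a ∈ D ∧ L ^ H ≤ a ∧ (a : ℝ) ≤ N / L ^ H := by
    intro ω hω a ha
    obtain ⟨r1, r2, r3⟩ := (g3 ω hω).1 a ha
    rw [← hL'd] at r2 r3
    refine ⟨r1, ?_, ?_⟩
    · refine le_trans ?_ r2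
      calc L ^ H ≤ L ^ (H + 1) := pow_le_pow_right₀ hL1 (by omega)
        _ ≤ L' ^ (H + 1) := pow_le_pow_left₀ hL0.le l2 _
    · refine r3.trans ?_
      rw [hN'r, div_le_div_iff₀ (by positivity) (by positivity)]
      have e1 : L ^ (H + 1) ≤ L' ^ (H + 1) := pow_le_pow_left₀ hL0.le l2 _
      calc ((B : ℝ) + 2) * N * L ^ H = N * ((B + 2) * L ^ H) := by ring
        _ ≤ N * (L * L ^ H) := by
            apply mul_le_mul_of_nonneg_left _ hN0.le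
            apply mul_le_mul_of_nonneg_right _ (by positivity)
            linarith
        _ = N * L ^ (H + 1) := by ring
        _ ≤ N * L' ^ (H + 1) := mul_le_mul_of_nonneg_left e1 hN0.le
  have hcard : ∀ ω ∈ Ω, ((Sf ω).card : ℝ) ≤ 4 * |C₀| * Real.log L ^ 2 := by
    intro ω hω
    have r1 := (g3 ω hω).2.1
    rw [← hL'd] at r1
    have r2 : C₀ * Real.log L' ^ 2 ≤ |C₀| * Real.log L' ^ 2 := mul_le_mul_of_nonneg_right (le_abs_self _) (by positivity)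
    have r3 : |C₀| * Real.log L' ^ 2 ≤ |C₀| * (4 * Real.log L ^ 2) := mul_le_mul_of_nonneg_left l3 (abs_nonneg _)
    linarith
  -- the sum is small
  have hsum : ∀ ω ∈ Ω, 2 * ∑ a ∈ Sf ω, a ≤ N := by
    intro ω hω
    have r1 : ((∑ a ∈ Sf ω, a : ℕ) : ℝ) ≤ (Sf ω).card * (N' / L' ^ (H + 1)) := by
      rw [Nat.cast_sum, ← nsmul_eq_mul, ← sum_const]
      apply sum_le_sum
      intro a ha
      have := ((g3 ω hω).1 a ha).2.2
      rw [← hL'd] at this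
      exact this
    have r2 : (N' : ℝ) / L' ^ (H + 1) ≤ ((B + 2) * N) / L := by
      rw [hN'r]
      apply div_le_div_of_nonneg_left (by positivity) hL0
      calc L ≤ L' := l2
        _ = L' ^ 1 := (pow_one _).symm
        _ ≤ L' ^ (H + 1) := pow_le_pow_right₀ (by linarith) (by omega)
    have r3 := hcard ω hω
    have r4 : 2 * ((∑ a ∈ Sf ω, a : ℕ) : ℝ) ≤ N := by
      calc 2 * ((∑ a ∈ Sf ω, a : ℕ) : ℝ) ≤ 2 * ((4 * |C₀| * Real.log L ^ 2) * (((B + 2) * N) / L)) := by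
            apply mul_le_mul_of_nonneg_left _ (by norm_num)
            exact r1.trans (mul_le_mul r3 r2 (by positivity) (by positivity))
        _ = (8 * |C₀| * (B + 2) * Real.log L ^ 2) * (N / L) := by ring
        _ ≤ L * (N / L) := mul_le_mul_of_nonneg_right hl4 (by positivity)
        _ = N := by field_simp
    exact_mod_cast r4
  obtain ⟨Yf, hYf⟩ : ∃ Yf : ℕ → Bool → (Fin n → ℕ) → ℤ, Yf = fun (y : ℕ) (s : Bool) (ω : Fin n → ℕ) =>
    (if s then (1 : ℤ) else -1) * ((∑ a ∈ Sf ω, a : ℕ) : ℤ) + (y : ℤ) := ⟨_, rfl⟩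
  have hbd : ∀ y ∈ Y, ∀ s : Bool, ∀ ω ∈ Ω, (N : ℤ) ≤ 2 * Yf y s ω ∧ Yf y s ω ≤ ((B + 1 : ℕ) : ℤ) * N := by
    intro y hy s ω hω
    obtain ⟨y1, y2⟩ := hY y hy
    have s4 : (2 : ℤ) * ((∑ a ∈ Sf ω, a : ℕ) : ℤ) ≤ N := by exact_mod_cast hsum ω hω
    have s5 : (0 : ℤ) ≤ ((∑ a ∈ Sf ω, a : ℕ) : ℤ) := Nat.cast_nonneg _
    have s6 : (N : ℤ) ≤ y := by exact_mod_cast y1
    have s7 : (y : ℤ) ≤ B * N := by exact_mod_cast y2
    have s8 : (((B + 1 : ℕ) : ℤ)) * N = B * N + N := by push_cast; ring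
    rw [hYf, s8]
    cases s
    · simp only [Bool.false_eq_true, if_false]
      constructor <;> linarith
    · simp only [if_true]
      constructor <;> linarith
  have hNz : (0 : ℤ) < N := by exact_mod_cast (by omega : 0 < N)
  have hN'z : (N' : ℤ) = (B + 1 : ℕ) * N + N := by rw [hN']; push_cast; ring
  have hAF : ∀ A ∈ F, A ⊆ Icc 1 N' ∧ (N' : ℝ) ≤ A.card * L' ^ (C + 1) := by
    intro A hA
    obtain ⟨a1, a2⟩ := hF A hA
    rw [← hLd] at a2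
    refine ⟨a1.trans (Icc_subset_Icc_right hNN'), ?_⟩
    rw [hN'r]
    have e1 : L ^ C ≤ L' ^ C := pow_le_pow_left₀ hL0.le l2 _
    calc ((B : ℝ) + 2) * N ≤ L' * (A.card * L' ^ C) := by
          apply mul_le_mul (by linarith) _ hN0.le hL'0.le
          exact a2.trans (mul_le_mul_of_nonneg_left e1 (Nat.cast_nonneg _))
      _ = A.card * L' ^ (C + 1) := by ring
  obtain ⟨Gd, hGd⟩ : ∃ Gd : Finset ℕ → ℤ → Prop, Gd = fun A w => ∀ t : ℕ, L' ^ κ ≤ t → t ≤ N' →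
      |cs A w.toNat t * L' - A.card * t| ≤ (3 * ε / 4) * (A.card * t) ∧
      (1 / 4 - 3 * ε / 4) * A.card ≤ (GG A N' w.toNat t (3 * ε / 4)).card := ⟨_, rfl⟩
  have hone : ∀ A ∈ F, ∀ y ∈ Y, ∀ s : Bool, ∑ ω ∈ Ω, (if ¬ Gd A (Yf y s ω) then pr else 0) ≤ 1 / L' ^ U := by
    intro A hA y hy s
    have hlaw : TLaw b 20 c (VT (C + 1) (U + 2)) (Nat.log b N' + 1 + (1 + 4)) Ω (fun _ => pr) (Yf y s) := by
      rw [hYf]
      cases s
      · have h5 := (g2.neg).add (y : ℤ)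
        refine h5.congr (fun ω _ => ?_)
        simp only [Bool.false_eq_true, if_false]
        ring
      · have h5 := g2.add (y : ℤ)
        refine h5.congr (fun ω _ => ?_)
        simp only [if_true]
        ring
    obtain ⟨a1, a2⟩ := hAF A hA
    have key := h1 N' (by omega) _ Ω (fun _ => pr) (Yf y s) hlaw (fun ω hω => by
      obtain ⟨b1, b2⟩ := hbd y hy s ω hω
      rw [hN'z, abs_le]
      push_cast at b2 ⊢
      constructor <;> nlinarith) A a1 (by rw [← hL'd]; exact a2) (fun ω => ¬ Gd A (Yf y s ω)) inferInstance (fun ω hω hB => by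
      obtain ⟨b1, b2⟩ := hbd y hy s ω hω
      refine ⟨by omega, by rw [hN'z]; linarith, ?_⟩
      rw [hGd] at hB
      rw [← hL'd]
      exact hB)
    rw [← hL'd] at key
    exact key
  -- the union bound
  have hfin : (((F ×ˢ Y ×ˢ (univ : Finset Bool)).card : ℕ) : ℝ) * (1 / L' ^ U) < 1 := by
    rw [card_product, card_product, card_univ, Fintype.card_bool, Nat.cast_mul, Nat.cast_mul, mul_one_div,
      div_lt_one (by positivity), hU, pow_succ]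
    have e1 : L ^ T ≤ L' ^ T := pow_le_pow_left₀ hL0.le l2 _
    have e2 : (F.card : ℝ) * (Y.card * ((2 : ℕ) : ℝ)) ≤ L' ^ T * (L' ^ T * 2) := by
      push_cast
      apply mul_le_mul (hFc.trans e1) _ (by positivity) (by positivity)
      exact mul_le_mul_of_nonneg_right (hYc.trans e1) (by norm_num)
    refine e2.trans_lt ?_
    have e3 : 0 < L' ^ T * L' ^ T := by positivity
    have e4 : L' ^ (2 * T) = L' ^ T * L' ^ T := by rw [two_mul, pow_add]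
    rw [e4]
    nlinarith
  obtain ⟨ω, hω, hgood⟩ := Pool.Agent.J4H77.GB.exists_good Ω (fun _ => pr) g1 (F ×ˢ Y ×ˢ (univ : Finset Bool)) (fun i ω =>
    ¬ Gd i.1 (Yf i.2.1 i.2.2 ω)) (1 / L' ^ U) hpr (by
      intro i hi
      rw [mem_product, mem_product] at hi
      exact hone i.1 hi.1 i.2.1 hi.2.1 i.2.2) hfin
  refine ⟨Sf ω, by rw [← hLd]; exact helt ω hω, by rw [← hLd]; exact hcard ω hω, (g3 ω hω).2.2.2, ?_⟩
  intro A hA y hy v hv a ha haN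
  have hvs : ∃ s : Bool, v = Yf y s ω := by
    rcases hv with h | h
    · refine ⟨true, ?_⟩
      rw [h, hYf]
      simp only [if_true]
      ring
    · refine ⟨false, ?_⟩
      rw [h, hYf]
      simp only [Bool.false_eq_true, if_false]
      ring
  obtain ⟨s, hs⟩ := hvs
  have h6 := hgood (A, y, s) (by rw [mem_product, mem_product]; exact ⟨hA, hy, mem_univ _⟩)
  simp only [not_not] at h6
  rw [← hs, hGd] at h6
  obtain ⟨b1, b2⟩ := hbd y hy s ω hω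
  rw [← hs] at b1 b2
  obtain ⟨w, hw⟩ : ∃ w : ℕ, (w : ℤ) = v := ⟨v.toNat, by omega⟩
  rw [← hw] at b1 b2 h6 ⊢
  rw [Int.toNat_natCast] at h6
  have b1' : N ≤ 2 * w := by exact_mod_cast b1
  have b2' : w ≤ (B + 1) * N := by exact_mod_cast b2
  have h7 := h2 N (by omega) A (hF A hA).1 w b1' b2'
  rw [← hN', ← hL'd] at h7
  have h8 := h7 h6 a ha haN
  have e1 : ∀ x : ℕ, (((x : ℤ) + (w : ℤ) : ℤ) : ℝ) = ((x + w : ℕ) : ℝ) := fun x => by push_cast; ring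
  simp only [e1]
  exact h8

end Pool.Agent.J4H77.TR
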