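import Pool.Agent.J4H77.TR.Short
import Pool.Agent.H373R2.T7.BilLam
import Pool.Agent.TH646.TT.Cnt

set_option autoImplicit false

/-! The averages of `log p` over the intervals to the right of the points `a + b`, `a ∈ A`, from one correlation. -/

namespace Pool.Agent.J4H77.TR

open Finset Filter
open Pool.Agent.H373R2.T7 (lamI lamzI lamz ev_L' ev_log')
open Pool.Agent.W301.SS
open Pool.Agent.TH646.TT

/-- the weight: the number of the points `a` with `a < n ≤ a + y`, divided by `y` -/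
noncomputable def Gw (A : Finset ℕ) (y n : ℕ) : ℝ := ((A.filter (fun a => a < n ∧ n ≤ a + y)).card : ℝ) / y

lemma Gw_nonneg (A : Finset ℕ) (y n : ℕ) : 0 ≤ Gw A y n := by unfold Gw; positivity

lemma Gw_le (A : Finset ℕ) (y n : ℕ) (hy : 1 ≤ y) : Gw A y n ≤ 1 := by
  unfold Gw
  rw [div_le_one (by exact_mod_cast hy)]
  have h1 : A.filter (fun a => a < n ∧ n ≤ a + y) ⊆ Ico (n - y) n := by
    intro a ha
    rw [mem_filter] at ha
    rw [mem_Ico]
    omega
  have h2 := card_le_card h1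
  rw [Nat.card_Ico] at h2
  exact_mod_cast h2.trans (by omega)

lemma Gw_abs (A : Finset ℕ) (y n : ℕ) (hy : 1 ≤ y) : |Gw A y n| ≤ 1 := by
  rw [abs_of_nonneg (Gw_nonneg A y n)]
  exact Gw_le A y n hy

lemma Gw_sum (A : Finset ℕ) (y M : ℕ) (hM : ∀ a ∈ A, a + y ≤ M) (F : ℕ → ℝ) :
    ∑ n ∈ Icc 1 M, Gw A y n * F n = (∑ a ∈ A, ∑ h ∈ Ioc 0 y, F (a + h)) / y := by
  have h1 : ∀ n ∈ Icc 1 M, Gw A y n * F n = (∑ a ∈ A, if a < n ∧ n ≤ a + y then F n else 0) / y := by
    intro n _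
    unfold Gw
    rw [← sum_filter, sum_const, nsmul_eq_mul]
    ring
  rw [sum_congr rfl h1, ← sum_div, sum_comm]
  congr 1
  apply sum_congr rfl
  intro a ha
  rw [← sum_filter]
  have h2 : (Icc 1 M).filter (fun n => a < n ∧ n ≤ a + y) = (Ioc 0 y).image (fun h => a + h) := by
    ext n
    rw [mem_filter, mem_Icc, mem_image]
    constructor
    · rintro ⟨_, h3, h4⟩
      exact ⟨n - a, by rw [mem_Ioc]; omega, by omega⟩
    · rintro ⟨h, hh, rfl⟩
      rw [mem_Ioc] at hh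
      have := hM a ha
      omega
  rw [h2, sum_image (fun x _ y _ h => by simpa using h)]

lemma prime_powers (M : ℕ) (hM : 1 ≤ M) : ∑ n ∈ Icc 1 M, (ArithmeticFunction.vonMangoldt n - om n) ≤
    2 * √(M : ℝ) * Real.log M := by
  rw [sum_sub_distrib, sum_om, sum_Lam]
  exact Chebyshev.psi_sub_theta_le (by exact_mod_cast hM)

/-- from one correlation to the averages of `log p` -/
theorem theta_of (C E : ℕ) (ε : ℝ) (hε : 0 < ε) : ∃ κ N₀ : ℕ, ∀ N : ℕ, N₀ ≤ N → ∀ z : ℕ, Real.log N ≤ z →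
    (z : ℝ) ≤ Real.log N ^ E → ∀ A : Finset ℕ, A ⊆ Icc 1 N → (N : ℝ) ≤ A.card * Real.log N ^ C →
    ∀ y : ℕ, Real.log N ^ κ ≤ y → y ≤ 2 * N → ∀ b : ℕ, 1 ≤ b → b ≤ N →
    |∑ n ∈ Icc 1 (3 * N), Gw A y n * (lamI ((n : ℤ) + b) - lamzI z ((n : ℤ) + b))| ≤ N / Real.log N ^ (C + 1) →
    |∑ a ∈ A, av y (a + b) - A.card| ≤ ε * A.card := by
  obtain ⟨κ, n1, h1⟩ := short (ε / 3) (by positivity) E
  obtain ⟨n2, h2⟩ := ev_L' (3 / ε + 4)
  obtain ⟨n3, h3⟩ := ev_log' (C + 2) (12 / ε)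
  refine ⟨κ, n1 + n2 + n3 + 3, fun N hN z hz1 hz2 A hA hAN y hy1 hy2 b hb hbN hcor => ?_⟩
  have hL := h2 N (by omega)
  have hlog := h3 N (by omega)
  have hs := h1 N (by omega) z hz1 hz2
  obtain ⟨L, hLd⟩ : ∃ L, L = Real.log (N : ℝ) := ⟨_, rfl⟩
  rw [← hLd] at hL hlog hs hAN hy1 hcor
  have hε3 : 0 < 3 / ε := by positivity
  have hL4 : 4 ≤ L := by linarith
  have hL0 : 0 < L := by linarith
  have hN3 : (3 : ℝ) ≤ N := by exact_mod_cast (by omega : 3 ≤ N)
  have hN0 : (0 : ℝ) < N := by linarith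
  have hyr : (1 : ℝ) ≤ y := (one_le_pow₀ (by linarith)).trans hy1
  have hy0 : (0 : ℝ) < y := by linarith
  have hy : 1 ≤ y := by exact_mod_cast hyr
  have hM : ∀ a ∈ A, a + y ≤ 3 * N := by
    intro a ha
    have := (mem_Icc.1 (hA ha)).2
    omega
  have hc0 : (0 : ℝ) ≤ A.card := Nat.cast_nonneg _
  -- the two sides of the correlation
  have e1 : ∑ n ∈ Icc 1 (3 * N), Gw A y n * (lamI ((n : ℤ) + b) - lamzI z ((n : ℤ) + b)) =
      ∑ n ∈ Icc 1 (3 * N), Gw A y n * ArithmeticFunction.vonMangoldt (n + b) - ∑ n ∈ Icc 1 (3 * N), Gw A y n * lamz z (n + b) := by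
    rw [← sum_sub_distrib]
    apply sum_congr rfl
    intro n _
    have e2 : ((n : ℤ) + b).toNat = n + b := by omega
    unfold lamI lamzI
    rw [if_pos (by omega), if_pos (by omega), e2]
    ring
  have e2 : ∑ n ∈ Icc 1 (3 * N), Gw A y n * lamz z (n + b) = (∑ a ∈ A, ∑ h ∈ Ioc 0 y, lamz z (a + h + b)) / y :=
    Gw_sum A y (3 * N) hM (fun n => lamz z (n + b))
  have e3 : ∑ n ∈ Icc 1 (3 * N), Gw A y n * om (n + b) = ∑ a ∈ A, av y (a + b) := by
    rw [Gw_sum A y (3 * N) hM (fun n => om (n + b)), sum_div]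
    apply sum_congr rfl
    intro a _
    unfold av
    congr 1
    apply sum_congr rfl
    intro h _
    congr 1
    omega
  -- the sieve model
  have g1 : |∑ n ∈ Icc 1 (3 * N), Gw A y n * lamz z (n + b) - A.card| ≤ ε / 3 * A.card := by
    rw [e2]
    have h5 : ∀ a ∈ A, |∑ h ∈ Ioc 0 y, lamz z (a + h + b) - y| ≤ ε / 3 * y := by
      intro a _
      have h6 := hs (a + b) y hy1
      have h7 : ∑ h ∈ Ioc 0 y, lamz z (a + h + b) = ∑ h ∈ Ioc 0 y, lamz z (a + b + h) := by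
        apply sum_congr rfl
        intro h _
        congr 1
        omega
      rw [h7]
      exact h6
    have h6 : |∑ a ∈ A, (∑ h ∈ Ioc 0 y, lamz z (a + h + b) - y)| ≤ ∑ _a ∈ A, ε / 3 * y :=
      (abs_sum_le_sum_abs _ _).trans (sum_le_sum h5)
    rw [sum_sub_distrib, sum_const, sum_const, nsmul_eq_mul, nsmul_eq_mul] at h6
    have h7 : (∑ a ∈ A, ∑ h ∈ Ioc 0 y, lamz z (a + h + b)) / y - A.card =
        (∑ a ∈ A, ∑ h ∈ Ioc 0 y, lamz z (a + h + b) - A.card * y) / y := by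
      field_simp
    rw [h7, abs_div, abs_of_pos hy0, div_le_iff₀ hy0]
    linarith
  -- prime powers
  have g2 : |∑ n ∈ Icc 1 (3 * N), Gw A y n * ArithmeticFunction.vonMangoldt (n + b) -
      ∑ n ∈ Icc 1 (3 * N), Gw A y n * om (n + b)| ≤ ε / 3 * A.card := by
    rw [← sum_sub_distrib]
    have h5 : ∀ n ∈ Icc 1 (3 * N), |Gw A y n * ArithmeticFunction.vonMangoldt (n + b) - Gw A y n * om (n + b)| ≤
        ArithmeticFunction.vonMangoldt (n + b) - om (n + b) := by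
      intro n _
      have h6 := sub_nonneg.2 (om_le (n + b))
      rw [← mul_sub, abs_mul, abs_of_nonneg h6]
      calc _ ≤ 1 * (ArithmeticFunction.vonMangoldt (n + b) - om (n + b)) :=
            mul_le_mul_of_nonneg_right (Gw_abs A y n hy) h6
        _ = _ := one_mul _
    refine ((abs_sum_le_sum_abs _ _).trans (sum_le_sum h5)).trans ?_
    have h6 : ∑ n ∈ Icc 1 (3 * N), (ArithmeticFunction.vonMangoldt (n + b) - om (n + b)) ≤
        ∑ n ∈ Icc 1 (4 * N), (ArithmeticFunction.vonMangoldt n - om n) := by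
      have h7 : ∑ n ∈ Icc 1 (3 * N), (ArithmeticFunction.vonMangoldt (n + b) - om (n + b)) =
          ∑ m ∈ (Icc 1 (3 * N)).image (fun n => n + b), (ArithmeticFunction.vonMangoldt m - om m) := by
        rw [sum_image (fun x _ y _ h => by simpa using h)]
      rw [h7]
      apply sum_le_sum_of_subset_of_nonneg
      · intro m hm
        obtain ⟨n, hn, rfl⟩ := mem_image.1 hm
        rw [mem_Icc] at hn ⊢
        omega
      · intro m _ _
        exact sub_nonneg.2 (om_le m)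
    refine h6.trans ((prime_powers (4 * N) (by omega)).trans ?_)
    have h7 : Real.log ((4 * N : ℕ) : ℝ) ≤ L ^ 2 := by
      push_cast
      rw [Real.log_mul (by norm_num) hN0.ne', ← hLd]
      have := log4
      nlinarith
    have h8 : √((4 * N : ℕ) : ℝ) = 2 * √(N : ℝ) := by
      push_cast
      rw [show (4 : ℝ) * N = 2 ^ 2 * N by ring, Real.sqrt_mul (by norm_num), Real.sqrt_sq (by norm_num)]
    rw [h8]
    have hss : √(N : ℝ) * √(N : ℝ) = N := Real.mul_self_sqrt hN0.le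
    have hs0 : 0 < √(N : ℝ) := Real.sqrt_pos.2 hN0
    have hpC : 0 < L ^ C := by positivity
    have h9 : 2 * (2 * √(N : ℝ)) * Real.log ((4 * N : ℕ) : ℝ) * L ^ C ≤ ε / 3 * A.card * L ^ C := by
      calc 2 * (2 * √(N : ℝ)) * Real.log ((4 * N : ℕ) : ℝ) * L ^ C ≤ 2 * (2 * √(N : ℝ)) * L ^ 2 * L ^ C := by gcongr
        _ = ε / 3 * (√(N : ℝ) * (12 / ε * L ^ (C + 2))) := by
            rw [pow_add]
            field_simp
            ring
        _ ≤ ε / 3 * (√(N : ℝ) * √(N : ℝ)) := by gcongr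
        _ = ε / 3 * N := by rw [hss]
        _ ≤ ε / 3 * (A.card * L ^ C) := by gcongr
        _ = _ := by ring
    exact le_of_mul_le_mul_right h9 hpC
  have g3 : (N : ℝ) / L ^ (C + 1) ≤ ε / 3 * A.card := by
    rw [div_le_iff₀ (by positivity), pow_succ]
    have h5 : 3 / ε ≤ L := by linarith
    rw [div_le_iff₀ hε] at h5
    have h6 : (N : ℝ) ≤ A.card * L ^ C := hAN
    have h7 : 0 ≤ (A.card : ℝ) * L ^ C := by positivity
    nlinarith
  rw [e1] at hcor
  rw [e3] at g2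
  have h5 := hcor.trans g3
  rw [abs_le] at h5 g1 g2 ⊢
  constructor <;> linarith [h5.1, h5.2, g1.1, g1.2, g2.1, g2.2]

end Pool.Agent.J4H77.TR
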