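import Pool.Agent.J4H77.TR.Full

set_option autoImplicit false

/-! From the numbers of primes in intervals of integral length to `(log x) ^ (1 - a) (π(x + (log x) ^ a) - π(x))`. -/

namespace Pool.Agent.J4H77.TR

open Finset
open Pool.Agent.H373R2.T7 (ev_L' ev_log')
open Pool.Agent.W301.SS

/-- `R_h(x) = (log x / h) (π(x + h) - π(x))` for `h = (log x) ^ a`. -/
noncomputable def ratio (a x : ℝ) : ℝ :=
  Real.log x / Real.log x ^ a * ((Nat.primeCounting ⌊x + Real.log x ^ a⌋₊ : ℝ) - Nat.primeCounting ⌊x⌋₊)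

lemma pc_eq (n t : ℕ) : (Nat.primeCounting (n + t) : ℝ) - Nat.primeCounting n = (pn n t : ℝ) := by
  have h1 : ∀ k : ℕ, Nat.primeCounting k = ((range (k + 1)).filter Nat.Prime).card := by
    intro k
    unfold Nat.primeCounting Nat.primeCounting'
    rw [Nat.count_eq_card_filter_range]
  have h2 : ((range (n + t + 1)).filter Nat.Prime).card = ((range (n + 1)).filter Nat.Prime).card + pn n t := by
    unfold pn
    rw [← card_union_of_disjoint]
    · congr 1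
      ext p
      simp only [mem_union, mem_filter, mem_range, mem_Ioc]
      constructor
      · rintro ⟨a1, a2⟩
        rcases Nat.lt_or_ge p (n + 1) with h | h
        · exact Or.inl ⟨h, a2⟩
        · exact Or.inr ⟨by omega, a2⟩
      · rintro (⟨a1, a2⟩ | ⟨a1, a2⟩)
        · exact ⟨by omega, a2⟩
        · exact ⟨by omega, a2⟩
    · rw [disjoint_left]
      intro p hp hq
      simp only [mem_filter, mem_range, mem_Ioc] at hp hq
      omega
  rw [h1, h1, h2]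
  push_cast
  ring

lemma ratio_nat (a : ℝ) (n : ℕ) : ratio a (n : ℝ) = Real.log n / Real.log n ^ a * pn n ⌊Real.log n ^ a⌋₊ := by
  have h0 : 0 ≤ Real.log (n : ℝ) ^ a := Real.rpow_nonneg (Real.log_natCast_nonneg n) _
  unfold ratio
  rw [Nat.floor_natCast, add_comm (n : ℝ), Nat.floor_add_natCast h0, add_comm _ n, pc_eq]

/-- the powers of the logarithms of numbers of about the same size -/
lemma pow_near (B : ℕ) (η : ℝ) (hη : 0 < η) (hη1 : η ≤ 1 / 2) : ∃ N₀ : ℕ, ∀ N : ℕ, N₀ ≤ N → ∀ n : ℕ, N ≤ 2 * n → n ≤ (B + 2) * N →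
    (∀ a : ℝ, 0 ≤ a → Real.log N ^ a ≤ N → (1 - η) * Real.log N ^ a ≤ Real.log n ^ a ∧ Real.log n ^ a ≤ (1 + η) * Real.log N ^ a) ∧
    (1 - η) * Real.log (((B + 2) * N : ℕ) : ℝ) ≤ Real.log n ∧ Real.log n ≤ Real.log (((B + 2) * N : ℕ) : ℝ) ∧
    Real.log (((B + 2) * N : ℕ) : ℝ) ≤ (1 + η) * Real.log N ∧ Real.log N ≤ Real.log (((B + 2) * N : ℕ) : ℝ) := by
  obtain ⟨c, hc⟩ : ∃ c : ℝ, c = Real.log ((B + 2 : ℕ) : ℝ) + 1 := ⟨_, rfl⟩
  have hlB : 0 ≤ Real.log ((B + 2 : ℕ) : ℝ) := Real.log_natCast_nonneg _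
  have hc1 : 1 ≤ c := by rw [hc]; linarith
  obtain ⟨n1, h1⟩ := ev_L' (Real.exp (4 * c / η) + 2 * c / η + 4 * c + 3)
  refine ⟨n1 + 3, fun N hN n hn1 hn2 => ?_⟩
  have hL := h1 N (by omega)
  have hN0 : (0 : ℝ) < N := by exact_mod_cast (by omega : 0 < N)
  have hn0 : (0 : ℝ) < n := by exact_mod_cast (by omega : 0 < n)
  have hE : Real.log (((B + 2) * N : ℕ) : ℝ) = Real.log ((B + 2 : ℕ) : ℝ) + Real.log N := by
    rw [Nat.cast_mul, Real.log_mul (by positivity) hN0.ne']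
  rw [hE]
  have hup : Real.log (n : ℝ) ≤ Real.log ((B + 2 : ℕ) : ℝ) + Real.log N := by
    rw [← hE]
    apply Real.log_le_log hn0
    exact_mod_cast hn2
  have hlo : Real.log (N : ℝ) - 1 ≤ Real.log n := by
    have e1 : Real.log (N : ℝ) ≤ Real.log ((2 : ℝ) * n) := by
      apply Real.log_le_log hN0
      exact_mod_cast hn1
    rw [Real.log_mul (by norm_num) hn0.ne'] at e1
    have := Real.log_two_lt_d9
    linarith
  obtain ⟨L, hLd⟩ : ∃ L, L = Real.log (N : ℝ) := ⟨_, rfl⟩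
  obtain ⟨r, hr⟩ : ∃ r, r = Real.log (n : ℝ) := ⟨_, rfl⟩
  obtain ⟨b, hb⟩ : ∃ b, b = Real.log ((B + 2 : ℕ) : ℝ) := ⟨_, rfl⟩
  rw [← hLd, ← hr] at hlo
  rw [← hLd, ← hr, ← hb] at hup
  rw [← hLd] at hL
  rw [← hb] at hc hlB
  rw [← hLd, ← hr, ← hb]
  have p1 : 0 < Real.exp (4 * c / η) := Real.exp_pos _
  have p2 : 0 < 2 * c / η := by positivity
  have hL0 : 0 < L := by linarith
  have hcη : 2 * c ≤ η * L := by
    have : 2 * c / η ≤ L := by linarith
    rw [div_le_iff₀ hη] at this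
    linarith
  have hrL : L / 2 ≤ r := by linarith
  have hr0 : 0 < r := by linarith
  refine ⟨fun a ha haN => ?_, by nlinarith, hup, by linarith, by linarith⟩
  -- the exponents
  have hlogL : 4 * c / η ≤ Real.log L := by
    rw [Real.le_log_iff_exp_le hL0]
    linarith
  have hlogL0 : 0 < Real.log L := lt_of_lt_of_le (by positivity) hlogL
  have haL : a * Real.log L ≤ L := by
    have e1 : Real.log (L ^ a) ≤ L := by
      have e2 := Real.log_le_log (Real.rpow_pos_of_pos hL0 a) haN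
      rwa [← hLd] at e2
    rwa [Real.log_rpow hL0] at e1
  have hacL : a * c / L ≤ η / 4 := by
    have e1 : c ≤ η / 4 * Real.log L := by
      rw [div_le_iff₀ hη] at hlogL
      linarith
    rw [div_le_iff₀ hL0]
    calc a * c ≤ a * (η / 4 * Real.log L) := mul_le_mul_of_nonneg_left e1 ha
      _ = η / 4 * (a * Real.log L) := by ring
      _ ≤ η / 4 * L := mul_le_mul_of_nonneg_left haL (by positivity)
  have hd1 : Real.log r - Real.log L ≤ c / L := by
    rw [← Real.log_div hr0.ne' hL0.ne']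
    refine (Real.log_le_sub_one_of_pos (by positivity)).trans ?_
    rw [div_sub_one hL0.ne']
    apply div_le_div_of_nonneg_right _ hL0.le
    linarith
  have hd2 : Real.log L - Real.log r ≤ 2 * (c / L) := by
    rw [← Real.log_div hL0.ne' hr0.ne']
    refine (Real.log_le_sub_one_of_pos (by positivity)).trans ?_
    rw [div_sub_one hr0.ne', div_le_iff₀ hr0]
    have e1 : c / L * L = c := div_mul_cancel₀ c hL0.ne'
    have e2 : 0 ≤ c / L := by positivity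
    nlinarith
  have hra : r ^ a = L ^ a * Real.exp (a * (Real.log r - Real.log L)) := by
    rw [Real.rpow_def_of_pos hr0, Real.rpow_def_of_pos hL0, ← Real.exp_add]
    congr 1
    ring
  have hLa : 0 < L ^ a := Real.rpow_pos_of_pos hL0 a
  rw [hra]
  have ht1 : a * (Real.log r - Real.log L) ≤ η / 4 := by
    calc a * (Real.log r - Real.log L) ≤ a * (c / L) := mul_le_mul_of_nonneg_left hd1 ha
      _ = a * c / L := by ring
      _ ≤ _ := hacL
  have ht2 : -(η / 2) ≤ a * (Real.log r - Real.log L) := by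
    have e1 : a * (Real.log L - Real.log r) ≤ a * (2 * (c / L)) := mul_le_mul_of_nonneg_left hd2 ha
    have e2 : a * (2 * (c / L)) = 2 * (a * c / L) := by ring
    nlinarith
  constructor
  · rw [mul_comm]
    apply mul_le_mul_of_nonneg_left _ hLa.le
    have e1 := Real.add_one_le_exp (a * (Real.log r - Real.log L))
    linarith
  · rw [mul_comm]
    apply mul_le_mul_of_nonneg_right _ hLa.le
    have e1 : Real.exp (a * (Real.log r - Real.log L)) ≤ Real.exp (η / 4) := Real.exp_le_exp.2 ht1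
    have e2 : Real.exp (η / 4) ≤ 1 + η := by
      have e3 := Real.add_one_le_exp (-(η / 4))
      have e4 : Real.exp (η / 4) * Real.exp (-(η / 4)) = 1 := by rw [← Real.exp_add]; simp
      have e5 : 0 < Real.exp (η / 4) := Real.exp_pos _
      nlinarith
    exact e1.trans e2

open Classical in
/-- all exponents -/
theorem ratio_of (B κ : ℕ) (ε : ℝ) (hε : 0 < ε) (hε1 : ε ≤ 1 / 4) : ∃ N₀ : ℕ, ∀ N : ℕ, N₀ ≤ N → ∀ A : Finset ℕ, A ⊆ Icc 1 N →
    ∀ v : ℕ, N ≤ 2 * v → v ≤ (B + 1) * N →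
    (∀ t : ℕ, Real.log (((B + 2) * N : ℕ) : ℝ) ^ κ ≤ t → t ≤ (B + 2) * N →
      |cs A v t * Real.log (((B + 2) * N : ℕ) : ℝ) - A.card * t| ≤ (3 * ε / 4) * (A.card * t) ∧
      (1 / 4 - 3 * ε / 4) * A.card ≤ (GG A ((B + 2) * N) v t (3 * ε / 4)).card) →
    ∀ a : ℝ, (κ : ℝ) + 1 ≤ a → Real.log N ^ a ≤ N →
      |∑ x ∈ A, ratio a ((x + v : ℕ) : ℝ) - A.card| ≤ ε * A.card ∧
      (1 / 4 - ε) * A.card ≤ ((A.filter (fun x => ε / 2 ≤ ratio a ((x + v : ℕ) : ℝ))).card : ℝ) := by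
  obtain ⟨η, hη⟩ : ∃ η, η = ε / 64 := ⟨_, rfl⟩
  have hη0 : 0 < η := by rw [hη]; positivity
  have hη1 : η ≤ 1 / 256 := by rw [hη]; linarith
  obtain ⟨n1, h1⟩ := pow_near B η hη0 (by linarith)
  obtain ⟨n2, h2⟩ := ev_L' (1 / η + 2 ^ (κ + 1) + 1)
  refine ⟨n1 + n2 + 3, fun N hN A hA v hv1 hv2 hgood a ha haN => ?_⟩
  have hL := h2 N (by omega)
  have hN0 : (0 : ℝ) < N := by exact_mod_cast (by omega : 0 < N)
  have hN3 : (3 : ℝ) ≤ N := by exact_mod_cast (by omega : 3 ≤ N)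
  obtain ⟨L, hLd⟩ : ∃ L, L = Real.log (N : ℝ) := ⟨_, rfl⟩
  obtain ⟨N', hN'⟩ : ∃ N', N' = (B + 2) * N := ⟨_, rfl⟩
  obtain ⟨L', hL'⟩ : ∃ L', L' = Real.log (N' : ℝ) := ⟨_, rfl⟩
  rw [← hN'] at hgood
  rw [← hL'] at hgood
  have p1 : 0 < 1 / η := by positivity
  have p2 : (0 : ℝ) < 2 ^ (κ + 1) := by positivity
  rw [← hLd] at hL haN
  have hL1 : 1 ≤ L := by linarith
  have hL0 : 0 < L := by linarith
  have ha0 : 0 ≤ a := by
    have : (0 : ℝ) ≤ κ := Nat.cast_nonneg κ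
    linarith
  obtain ⟨P, hP⟩ : ∃ P : ℝ, P = L ^ a := ⟨_, rfl⟩
  have hPk : L * L ^ κ ≤ P := by
    have e1 : L ^ ((κ + 1 : ℕ) : ℝ) ≤ L ^ a := Real.rpow_le_rpow_of_exponent_le hL1 (by push_cast; exact ha)
    rw [Real.rpow_natCast, pow_succ] at e1
    rw [hP]
    linarith
  have hLk : 1 ≤ L ^ κ := one_le_pow₀ hL1
  have hPL : L ≤ P := (le_mul_of_one_le_right hL0.le hLk).trans hPk
  have hP0 : 0 < P := by linarith
  have q1 : 0 < (1 - η) * P := mul_pos (by linarith) hP0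
  have q2 : 0 < (1 + η) * P := by positivity
  have hηP : 1 ≤ η * P := by
    have e1 : 1 / η ≤ P := by linarith
    rw [div_le_iff₀ hη0] at e1
    linarith
  have hPN : P ≤ N := by rw [hP]; exact haN
  -- bounds for the points
  have hpt : ∀ x ∈ A, ((1 - η) * P ≤ Real.log ((x + v : ℕ) : ℝ) ^ a ∧ Real.log ((x + v : ℕ) : ℝ) ^ a ≤ (1 + η) * P) ∧
      (1 - η) * L' ≤ Real.log ((x + v : ℕ) : ℝ) ∧ Real.log ((x + v : ℕ) : ℝ) ≤ L' ∧ L' ≤ (1 + η) * L ∧ L ≤ L' := by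
    intro x hx
    have hx1 := mem_Icc.1 (hA hx)
    have hxv : x + v ≤ (B + 2) * N := by
      calc x + v ≤ N + (B + 1) * N := Nat.add_le_add hx1.2 hv2
        _ = (B + 2) * N := by ring
    have e1 := h1 N (by omega) (x + v) (by omega) hxv
    rw [← hN', ← hL', ← hLd] at e1
    refine ⟨?_, e1.2⟩
    rw [hP]
    exact e1.1 a ha0 haN
  obtain ⟨t₁, ht₁⟩ : ∃ t₁ : ℕ, t₁ = ⌊(1 - η) * P⌋₊ := ⟨_, rfl⟩
  obtain ⟨t₂, ht₂⟩ : ∃ t₂ : ℕ, t₂ = ⌈(1 + η) * P⌉₊ := ⟨_, rfl⟩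
  have a1 : (1 - 2 * η) * P ≤ t₁ := by
    have e1 : (1 - η) * P < t₁ + 1 := by rw [ht₁]; exact Nat.lt_floor_add_one _
    linarith
  have a1' : (t₁ : ℝ) ≤ (1 - η) * P := by rw [ht₁]; exact Nat.floor_le q1.le
  have a2 : (t₂ : ℝ) ≤ (1 + 2 * η) * P := by
    have e1 : (t₂ : ℝ) < (1 + η) * P + 1 := by rw [ht₂]; exact Nat.ceil_lt_add_one (by positivity)
    linarith
  have a2' : (1 + η) * P ≤ t₂ := by rw [ht₂]; exact Nat.le_ceil _
  have ht12 : t₁ ≤ t₂ := by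
    have e1 : (1 - η) * P ≤ (1 + η) * P := mul_le_mul_of_nonneg_right (by linarith) hP0.le
    have : (t₁ : ℝ) ≤ t₂ := a1'.trans (e1.trans a2')
    exact_mod_cast this
  have ht2N : t₂ ≤ N' := by
    have e0 : (1 + 2 * η) * P ≤ 2 * N := mul_le_mul (by linarith) hPN hP0.le (by norm_num)
    have e1 : (t₂ : ℝ) ≤ 2 * N := a2.trans e0
    have e2 : t₂ ≤ 2 * N := by exact_mod_cast e1
    rw [hN']
    exact e2.trans (Nat.mul_le_mul_right _ (by omega))
  rcases A.eq_empty_or_nonempty with hAe | ⟨x₀, hx₀⟩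
  · rw [hAe]
    simp
  obtain ⟨_, _, _, b1, b2⟩ := hpt x₀ hx₀
  have hL'0 : 0 < L' := by linarith
  have q3 : 0 < (1 - η) * L' := mul_pos (by linarith) hL'0
  have ht1k : L' ^ κ ≤ t₁ := by
    have e1 : L' ^ κ ≤ (2 * L) ^ κ := pow_le_pow_left₀ hL'0.le (b1.trans (mul_le_mul_of_nonneg_right (by linarith) hL0.le)) _
    rw [mul_pow] at e1
    have e2 : (2 : ℝ) ^ (κ + 1) * L ^ κ ≤ L * L ^ κ := mul_le_mul_of_nonneg_right (by linarith) (by positivity)
    rw [pow_succ] at e2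
    have e3 : P / 2 ≤ (1 - 2 * η) * P := by
      rw [div_eq_mul_one_div, mul_comm]
      exact mul_le_mul_of_nonneg_right (by linarith) hP0.le
    linarith
  have g1 := hgood t₁ ht1k (ht12.trans ht2N)
  have g2 := hgood t₂ (ht1k.trans (by exact_mod_cast ht12)) ht2N
  obtain ⟨c, hc⟩ : ∃ c : ℝ, c = A.card := ⟨_, rfl⟩
  have hc0 : 0 ≤ c := by rw [hc]; exact Nat.cast_nonneg _
  rw [← hc] at g1 g2 ⊢
  -- pointwise bounds
  have hup : ∀ x ∈ A, ratio a ((x + v : ℕ) : ℝ) ≤ L' / ((1 - η) * P) * pn (x + v) t₂ := by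
    intro x hx
    obtain ⟨⟨d1, d2⟩, d3, d4, _, _⟩ := hpt x hx
    rw [ratio_nat]
    have e1 : ⌊Real.log ((x + v : ℕ) : ℝ) ^ a⌋₊ ≤ t₂ := by
      have : ((⌊Real.log ((x + v : ℕ) : ℝ) ^ a⌋₊ : ℕ) : ℝ) ≤ t₂ :=
        (Nat.floor_le (Real.rpow_nonneg (Real.log_natCast_nonneg _) _)).trans (d2.trans a2')
      exact_mod_cast this
    have e2 : (pn (x + v) ⌊Real.log ((x + v : ℕ) : ℝ) ^ a⌋₊ : ℝ) ≤ pn (x + v) t₂ := by exact_mod_cast pn_mono e1
    apply mul_le_mul _ e2 (Nat.cast_nonneg _) (div_nonneg hL'0.le q1.le)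
    exact div_le_div₀ hL'0.le d4 q1 d1
  have hlow : ∀ x ∈ A, (1 - η) * L' / ((1 + η) * P) * pn (x + v) t₁ ≤ ratio a ((x + v : ℕ) : ℝ) := by
    intro x hx
    obtain ⟨⟨d1, d2⟩, d3, d4, _, _⟩ := hpt x hx
    rw [ratio_nat]
    have e1 : t₁ ≤ ⌊Real.log ((x + v : ℕ) : ℝ) ^ a⌋₊ := by
      rw [ht₁]
      exact Nat.floor_mono d1
    have e2 : (pn (x + v) t₁ : ℝ) ≤ pn (x + v) ⌊Real.log ((x + v : ℕ) : ℝ) ^ a⌋₊ := by exact_mod_cast pn_mono e1
    have e3 : 0 < Real.log ((x + v : ℕ) : ℝ) ^ a := lt_of_lt_of_le q1 d1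
    apply mul_le_mul _ e2 (Nat.cast_nonneg _) (div_nonneg (q3.le.trans d3) e3.le)
    exact div_le_div₀ (q3.le.trans d3) d3 e3 d2
  have f1 : 1 - 3 * η ≤ (1 - η) * (1 - 2 * η) := by
    have : 0 < η * η := mul_pos hη0 hη0
    have e1 : (1 - η) * (1 - 2 * η) = 1 - 3 * η + 2 * (η * η) := by ring
    rw [e1]
    linarith
  have s2 : ∑ x ∈ A, ratio a ((x + v : ℕ) : ℝ) ≤ (1 + ε) * c := by
    calc ∑ x ∈ A, ratio a ((x + v : ℕ) : ℝ) ≤ ∑ x ∈ A, L' / ((1 - η) * P) * pn (x + v) t₂ := sum_le_sum hup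
      _ = (cs A v t₂ * L') / ((1 - η) * P) := by
          rw [← mul_sum]
          unfold cs
          ring
      _ ≤ ((1 + 3 * ε / 4) * (c * t₂)) / ((1 - η) * P) := by
          apply div_le_div_of_nonneg_right _ q1.le
          linarith [(abs_le.1 g2.1).2]
      _ ≤ ((1 + 3 * ε / 4) * (c * ((1 + 2 * η) * P))) / ((1 - η) * P) := by
          apply div_le_div_of_nonneg_right _ q1.le
          gcongr
      _ ≤ (1 + ε) * c := by
          rw [div_le_iff₀ q1]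
          have e1 : (1 + 3 * ε / 4) * (1 + 2 * η) ≤ (1 + ε) * (1 - η) := by
            have e3 : η * ε ≤ 1 / 4 * η := by
              rw [mul_comm]
              exact mul_le_mul_of_nonneg_right hε1 hη0.le
            have e4 : (1 + 3 * ε / 4) * (1 + 2 * η) = 1 + 3 * ε / 4 + 2 * η + 3 / 2 * (η * ε) := by ring
            have e5 : (1 + ε) * (1 - η) = 1 + ε - η - η * ε := by ring
            rw [e4, e5]
            linarith
          calc (1 + 3 * ε / 4) * (c * ((1 + 2 * η) * P)) = ((1 + 3 * ε / 4) * (1 + 2 * η)) * (c * P) := by ring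
            _ ≤ ((1 + ε) * (1 - η)) * (c * P) := mul_le_mul_of_nonneg_right e1 (by positivity)
            _ = _ := by ring
  have s1 : (1 - ε) * c ≤ ∑ x ∈ A, ratio a ((x + v : ℕ) : ℝ) := by
    have e0 : (1 - ε) * (1 + η) ≤ (1 - η) * ((1 - 3 * ε / 4) * (1 - 2 * η)) := by
      have f2 := mul_le_mul_of_nonneg_right f1 (show (0 : ℝ) ≤ 1 - 3 * ε / 4 by linarith)
      have f3 : 0 < η * ε := mul_pos hη0 hε
      have f4 : (1 - ε) * (1 + η) = 1 - ε + η - η * ε := by ring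
      have f5 : (1 - 3 * η) * (1 - 3 * ε / 4) = 1 - 3 * η - 3 * ε / 4 + 9 / 4 * (η * ε) := by ring
      have f6 : (1 - η) * (1 - 2 * η) * (1 - 3 * ε / 4) = (1 - η) * ((1 - 3 * ε / 4) * (1 - 2 * η)) := by ring
      rw [f5, f6] at f2
      rw [f4]
      linarith
    calc (1 - ε) * c ≤ ((1 - η) * ((1 - 3 * ε / 4) * (c * ((1 - 2 * η) * P)))) / ((1 + η) * P) := by
          rw [le_div_iff₀ (by positivity)]
          calc (1 - ε) * c * ((1 + η) * P) = ((1 - ε) * (1 + η)) * (c * P) := by ring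
            _ ≤ ((1 - η) * ((1 - 3 * ε / 4) * (1 - 2 * η))) * (c * P) := mul_le_mul_of_nonneg_right e0 (by positivity)
            _ = _ := by ring
      _ ≤ ((1 - η) * (cs A v t₁ * L')) / ((1 + η) * P) := by
          apply div_le_div_of_nonneg_right _ (by positivity)
          apply mul_le_mul_of_nonneg_left _ (by linarith)
          have e1 := (abs_le.1 g1.1).1
          have e2 : c * ((1 - 2 * η) * P) ≤ c * t₁ := mul_le_mul_of_nonneg_left a1 hc0
          have e3 : (1 - 3 * ε / 4) * (c * ((1 - 2 * η) * P)) ≤ (1 - 3 * ε / 4) * (c * t₁) :=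
            mul_le_mul_of_nonneg_left e2 (by linarith)
          linarith
      _ = ∑ x ∈ A, (1 - η) * L' / ((1 + η) * P) * pn (x + v) t₁ := by
          rw [← mul_sum]
          unfold cs
          ring
      _ ≤ _ := sum_le_sum hlow
  refine ⟨?_, ?_⟩
  · rw [abs_le]
    constructor <;> linarith
  · have e1 : GG A N' v t₁ (3 * ε / 4) ⊆ A.filter (fun x => ε / 2 ≤ ratio a ((x + v : ℕ) : ℝ)) := by
      intro x hx
      unfold GG at hx
      rw [mem_filter] at hx ⊢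
      refine ⟨hx.1, ?_⟩
      obtain ⟨hxA, hx2⟩ := hx
      rw [← hL'] at hx2
      refine le_trans ?_ (hlow x hxA)
      have e2 : (1 - η) * L' / ((1 + η) * P) * pn (x + v) t₁ = ((1 - η) * (pn (x + v) t₁ * L')) / ((1 + η) * P) := by ring
      rw [e2, le_div_iff₀ (by positivity)]
      have e3 : 3 * ε / 4 * ((1 - 2 * η) * P) ≤ pn (x + v) t₁ * L' := (mul_le_mul_of_nonneg_left a1 (by positivity)).trans hx2
      have e4 : (1 - η) * (3 * ε / 4 * ((1 - 2 * η) * P)) ≤ (1 - η) * (pn (x + v) t₁ * L') :=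
        mul_le_mul_of_nonneg_left e3 (by linarith)
      have e5 : ε / 2 * (1 + η) ≤ (1 - η) * (3 * ε / 4 * (1 - 2 * η)) := by
        have f2 := mul_le_mul_of_nonneg_left f1 (show (0 : ℝ) ≤ 3 * ε / 4 by linarith)
        have f3 : η * ε ≤ 1 / 256 * ε := mul_le_mul_of_nonneg_right hη1 hε.le
        have f5 : 3 * ε / 4 * (1 - 3 * η) = 3 * ε / 4 - 9 / 4 * (η * ε) := by ring
        have f6 : 3 * ε / 4 * ((1 - η) * (1 - 2 * η)) = (1 - η) * (3 * ε / 4 * (1 - 2 * η)) := by ring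
        have f7 : ε / 2 * (1 + η) = ε / 2 + 1 / 2 * (η * ε) := by ring
        rw [f5, f6] at f2
        rw [f7]
        linarith
      calc ε / 2 * ((1 + η) * P) = (ε / 2 * (1 + η)) * P := by ring
        _ ≤ ((1 - η) * (3 * ε / 4 * (1 - 2 * η))) * P := mul_le_mul_of_nonneg_right e5 hP0.le
        _ = (1 - η) * (3 * ε / 4 * ((1 - 2 * η) * P)) := by ring
        _ ≤ _ := e4
    have e2 : ((GG A N' v t₁ (3 * ε / 4)).card : ℝ) ≤ ((A.filter (fun x => ε / 2 ≤ ratio a ((x + v : ℕ) : ℝ))).card : ℝ) := by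
      exact_mod_cast card_le_card e1
    refine le_trans ?_ e2
    refine le_trans ?_ g1.2
    apply mul_le_mul_of_nonneg_right _ hc0
    linarith

end Pool.Agent.J4H77.TR
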