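import Pool.Agent.J4H77.TR.Ratio
import Pool.Agent.Y885.LW

set_option autoImplicit false

/-! Primes in the intervals `(x, x + (log x) ^ a]` for the translates of given sets by sums of independent random integers. -/

namespace Pool.Agent.J4H77.TR

open Finset
open Pool.Agent.H373R2.T7 (ev_L' ev_log')
open Pool.Agent.W301.SS
open Pool.Agent.Y885

lemma log_mul_pow (b m k : ℕ) (hb : 2 ≤ b) (hm : 1 ≤ m) : Nat.log b (m * b ^ k) = Nat.log b m + k := by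
  induction k with
  | zero => simp
  | succ k ih =>
    rw [pow_succ, ← mul_assoc, Nat.log_mul_base (by omega) (by positivity), ih]
    ring

open Classical in
theorem rs_ratio (b B G D C T U : ℕ) (hb : 2 ≤ b) (hB : 1 ≤ B) (η δ ε : ℝ) (hη : 0 < η) (hδ : 0 < δ) (hε : 0 < ε)
    (hε1 : ε ≤ 1 / 4) : ∃ (a₀ : ℝ) (k₀ : ℕ), ∀ k : ℕ, k₀ ≤ k → ∀ (J : Finset ℕ) (s : ℕ → Finset ℤ) (p : ℕ → ℤ → ℝ) (c : ℤ),
    Rich δ D k J →
    (∀ j < k, (∀ x ∈ s j, 0 ≤ p j x ∧ |x| ≤ (B : ℤ) * (b : ℤ) ^ j) ∧ ∑ x ∈ s j, p j x = 1) →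
    (∀ j ∈ J, ∀ y : ℤ, ∑ x ∈ s j, (if y ≤ x ∧ (B : ℤ) * (x - y) ≤ (b : ℤ) ^ j then p j x else 0) ≤ 1 - η) →
    ((B : ℤ) + 1) * (b : ℤ) ^ k ≤ c → c ≤ (G : ℤ) * (b : ℤ) ^ k →
    ∀ F : Finset (Finset ℕ), (∀ A ∈ F, A ⊆ Icc 1 (b ^ k) ∧ (b : ℝ) ^ k ≤ A.card * (k : ℝ) ^ C) → F.card ≤ k ^ T →
    ∑ ω ∈ Fintype.piFinset (fun j : Fin k => s j), (if ¬ ∀ A ∈ F, ∀ a : ℝ, a₀ ≤ a → Real.log ((b ^ k : ℕ) : ℝ) ^ a ≤ ((b ^ k : ℕ) : ℝ) →
        |∑ x ∈ A, ratio a ((x + (c + ∑ j : Fin k, ω j) : ℤ) : ℝ) - A.card| ≤ ε * A.card ∧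
        (1 / 4 - ε) * A.card ≤ ((A.filter (fun x : ℕ => ε / 2 ≤ ratio a ((x + (c + ∑ j : Fin k, ω j) : ℤ) : ℝ))).card : ℝ)
      then ∏ j : Fin k, p j (ω j) else 0) ≤ 1 / (k : ℝ) ^ U := by
  obtain ⟨E, hE, hlaw⟩ := rand_law b hb B D hB η δ hη hδ
  obtain ⟨B₁, hB₁⟩ : ∃ B₁, B₁ = G + B := ⟨_, rfl⟩
  obtain ⟨e, he⟩ : ∃ e, e = Nat.log b (B₁ + 2) + 6 := ⟨_, rfl⟩
  obtain ⟨c₁, m₁, hlaw1⟩ := hlaw e (VT (C + 2) (U + T + 1 + 2))
  obtain ⟨κ, K₀, h1⟩ := tl_full b E 1 (C + 2) (U + T + 1) hb hE (3 * ε / 4) (by positivity) (by linarith) c₁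
  obtain ⟨n2, h2⟩ := ratio_of B₁ κ ε hε hε1
  obtain ⟨n3, hn3⟩ := exists_nat_ge ((B₁ : ℝ) + 2 + 2 ^ (C + 2) + 2 ^ (U + T + 1))
  refine ⟨(κ : ℝ) + 1, m₁ + K₀ + n2 + n3 + 3, fun k hk J s p c hR hps hsp hc1 hc2 F hF hFc => ?_⟩
  have hbr : (2 : ℝ) ≤ b := by exact_mod_cast hb
  have hk3 : (3 : ℝ) ≤ k := by exact_mod_cast (by omega : 3 ≤ k)
  have hk0 : (0 : ℝ) < k := by linarith
  have hkn0 : (B₁ : ℝ) + 2 + 2 ^ (C + 2) + 2 ^ (U + T + 1) ≤ k := hn3.trans (by exact_mod_cast (by omega : n3 ≤ k))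
  have hkn : (B₁ : ℝ) + 2 + 2 ^ (C + 2) ≤ k := by
    have : (0 : ℝ) < 2 ^ (U + T + 1) := by positivity
    linarith
  have hkU : (2 : ℝ) ^ (U + T + 1) ≤ k := by
    have h0 : (0 : ℝ) ≤ B₁ := Nat.cast_nonneg _
    have : (0 : ℝ) < 2 ^ (C + 2) := by positivity
    linarith
  obtain ⟨N, hN⟩ : ∃ N, N = b ^ k := ⟨_, rfl⟩
  have hkN : k < N := by rw [hN]; exact Nat.lt_pow_self (by omega)
  have hNz : (N : ℤ) = (b : ℤ) ^ k := by rw [hN]; push_cast; ring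
  have hNr : (N : ℝ) = (b : ℝ) ^ k := by rw [hN]; push_cast; ring
  have hN0 : (0 : ℝ) < N := by exact_mod_cast (by omega : 0 < N)
  have hN0z : (0 : ℤ) < N := by exact_mod_cast (by omega : 0 < N)
  rw [← hNz] at hc1 hc2
  rw [← hN]
  obtain ⟨N', hN'⟩ : ∃ N', N' = (B₁ + 2) * N := ⟨_, rfl⟩
  have hlogN' : Nat.log b N' = Nat.log b (B₁ + 2) + k := by rw [hN', hN]; exact log_mul_pow b (B₁ + 2) k hb (by omega)
  have hke : k + e = Nat.log b N' + 1 + (1 + 4) := by rw [hlogN', he]; ring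
  obtain ⟨L', hL'd⟩ : ∃ L', L' = Real.log (N' : ℝ) := ⟨_, rfl⟩
  have hN'r : (N' : ℝ) = (B₁ + 2) * N := by rw [hN']; push_cast; ring
  have hNN' : N ≤ N' := by rw [hN']; exact Nat.le_mul_of_pos_left _ (by omega)
  have hlog1 : (k : ℝ) / 2 ≤ L' := by
    have e1 : Real.log ((b : ℝ) ^ k) ≤ L' := by
      rw [hL'd, ← hNr]
      exact Real.log_le_log hN0 (by exact_mod_cast hNN')
    rw [Real.log_pow] at e1
    have g1 : (1 : ℝ) / 2 ≤ Real.log b := by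
      have := Real.log_two_gt_d9
      have := Real.log_le_log (by norm_num) hbr
      linarith
    nlinarith
  have hL'0 : 0 < L' := by linarith
  have hnn : ∀ ω ∈ Fintype.piFinset (fun j : Fin k => s j), 0 ≤ ∏ j : Fin k, p j (ω j) := by
    intro ω hω
    rw [Fintype.mem_piFinset] at hω
    exact prod_nonneg fun j _ => ((hps j j.2).1 _ (hω j)).1
  have hAF : ∀ A ∈ F, A ⊆ Icc 1 N ∧ A ⊆ Icc 1 N' ∧ (N' : ℝ) ≤ A.card * L' ^ (C + 2) := by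
    intro A hA
    obtain ⟨a1, a2⟩ := hF A hA
    rw [← hN] at a1
    refine ⟨a1, a1.trans (Icc_subset_Icc_right hNN'), ?_⟩
    rw [hN'r]
    rw [← hNr] at a2
    have e1 : (2 : ℝ) ^ (C + 2) * (B₁ + 2) ≤ (k : ℝ) ^ 2 := by
      have : (0 : ℝ) < 2 ^ (C + 2) := by positivity
      have h0 : (0 : ℝ) ≤ B₁ := Nat.cast_nonneg _
      nlinarith
    have e2 : ((B₁ : ℝ) + 2) * (k : ℝ) ^ C ≤ L' ^ (C + 2) := by
      calc ((B₁ : ℝ) + 2) * (k : ℝ) ^ C = ((2 : ℝ) ^ (C + 2) * (B₁ + 2)) * (k : ℝ) ^ C / 2 ^ (C + 2) := by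
            field_simp
        _ ≤ (k : ℝ) ^ 2 * (k : ℝ) ^ C / 2 ^ (C + 2) := by gcongr
        _ = ((k : ℝ) / 2) ^ (C + 2) := by rw [div_pow]; ring
        _ ≤ _ := pow_le_pow_left₀ (by positivity) hlog1 _
    calc ((B₁ : ℝ) + 2) * N ≤ (B₁ + 2) * (A.card * (k : ℝ) ^ C) := mul_le_mul_of_nonneg_left a2 (by positivity)
      _ = A.card * ((B₁ + 2) * (k : ℝ) ^ C) := by ring
      _ ≤ _ := mul_le_mul_of_nonneg_left e2 (Nat.cast_nonneg _)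
  have hlaw2 := hlaw1 k (by omega) J s p c hR hps hsp
  rw [hke] at hlaw2
  have hbd : ∀ ω ∈ Fintype.piFinset (fun j : Fin k => s j), (N : ℤ) ≤ c + ∑ j : Fin k, ω j ∧ c + ∑ j : Fin k, ω j ≤ ((B₁ + 1 : ℕ) : ℤ) * N := by
    intro ω hω
    rw [Fintype.mem_piFinset] at hω
    have q0 : ∀ j : Fin k, |ω j| ≤ (B : ℤ) * (b : ℤ) ^ (j : ℕ) := fun j => ((hps j j.2).1 _ (hω j)).2
    have q1 : |∑ j : Fin k, ω j| ≤ (B : ℤ) * N := by
      have q2 : ∑ j : Fin k, (b : ℤ) ^ (j : ℕ) ≤ N := by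
        rw [Fin.sum_univ_eq_sum_range (fun j => (b : ℤ) ^ j) k, hNz]
        have hb2 : (2 : ℤ) ≤ b := by exact_mod_cast hb
        clear * - hb2
        induction k with
        | zero => simp
        | succ k ih =>
          rw [sum_range_succ, pow_succ]
          have : 0 < (b : ℤ) ^ k := by positivity
          nlinarith
      calc |∑ j : Fin k, ω j| ≤ ∑ j : Fin k, |ω j| := abs_sum_le_sum_abs _ _
        _ ≤ ∑ j : Fin k, (B : ℤ) * (b : ℤ) ^ (j : ℕ) := sum_le_sum fun j _ => q0 j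
        _ = (B : ℤ) * ∑ j : Fin k, (b : ℤ) ^ (j : ℕ) := by rw [mul_sum]
        _ ≤ _ := mul_le_mul_of_nonneg_left q2 (by positivity)
    have q3 := abs_le.1 q1
    rw [hB₁]
    push_cast
    constructor <;> linarith [q3.1, q3.2]
  have hN'z : (N' : ℤ) = (B₁ + 1 : ℕ) * N + N := by rw [hN']; push_cast; ring
  obtain ⟨Gd, hGd⟩ : ∃ Gd : Finset ℕ → ℤ → Prop, Gd = fun A w => ∀ t : ℕ, L' ^ κ ≤ t → t ≤ N' →
      |cs A w.toNat t * L' - A.card * t| ≤ (3 * ε / 4) * (A.card * t) ∧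
      (1 / 4 - 3 * ε / 4) * A.card ≤ (GG A N' w.toNat t (3 * ε / 4)).card := ⟨_, rfl⟩
  have hone : ∀ A ∈ F, ∑ ω ∈ Fintype.piFinset (fun j : Fin k => s j), (if ¬ Gd A (c + ∑ j : Fin k, ω j) then ∏ j : Fin k, p j (ω j) else 0) ≤
      1 / L' ^ (U + T + 1) := by
    intro A hA
    obtain ⟨_, a1, a2⟩ := hAF A hA
    have key := h1 N' (by omega) _ _ _ _ hlaw2 (fun ω hω => by
      obtain ⟨b1, b2⟩ := hbd ω hω
      rw [hN'z, abs_le]
      push_cast at b2 ⊢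
      constructor <;> nlinarith) A a1 (by rw [← hL'd]; exact a2) (fun ω => ¬ Gd A (c + ∑ j : Fin k, ω j)) inferInstance (fun ω hω hB => by
      obtain ⟨b1, b2⟩ := hbd ω hω
      refine ⟨by omega, by rw [hN'z]; linarith, ?_⟩
      rw [hGd] at hB
      rw [← hL'd]
      exact hB)
    rw [← hL'd] at key
    refine le_trans (le_of_eq ?_) key
    apply sum_congr rfl
    intro ω _
    congr
  have hsub : ∀ ω ∈ Fintype.piFinset (fun j : Fin k => s j), (∀ A ∈ F, Gd A (c + ∑ j : Fin k, ω j)) →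
      ∀ A ∈ F, ∀ a : ℝ, (κ : ℝ) + 1 ≤ a → Real.log (N : ℝ) ^ a ≤ (N : ℝ) →
        |∑ x ∈ A, ratio a ((x + (c + ∑ j : Fin k, ω j) : ℤ) : ℝ) - A.card| ≤ ε * A.card ∧
        (1 / 4 - ε) * A.card ≤ ((A.filter (fun x : ℕ => ε / 2 ≤ ratio a ((x + (c + ∑ j : Fin k, ω j) : ℤ) : ℝ))).card : ℝ) := by
    intro ω hω hG A hA a ha haN
    obtain ⟨b1, b2⟩ := hbd ω hω
    have h6 := hG A hA
    rw [hGd] at h6
    obtain ⟨v, hv⟩ : ∃ v, v = c + ∑ j : Fin k, ω j := ⟨_, rfl⟩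
    rw [← hv] at b1 b2 h6 ⊢
    obtain ⟨w, hw⟩ : ∃ w : ℕ, (w : ℤ) = v := ⟨v.toNat, by omega⟩
    rw [← hw] at b1 b2 h6 ⊢
    rw [Int.toNat_natCast] at h6
    have b1' : N ≤ w := by exact_mod_cast b1
    have b2' : w ≤ (B₁ + 1) * N := by exact_mod_cast b2
    have h7 := h2 N (by omega) A (hAF A hA).1 w (by omega) b2'
    rw [← hN', ← hL'd] at h7
    have h8 := h7 h6 a ha haN
    have e1 : ∀ x : ℕ, (((x : ℤ) + (w : ℤ) : ℤ) : ℝ) = ((x + w : ℕ) : ℝ) := fun x => by push_cast; ring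
    simp only [e1]
    refine ⟨h8.1, h8.2.trans (le_of_eq ?_)⟩
    congr
  calc _ ≤ ∑ ω ∈ Fintype.piFinset (fun j : Fin k => s j), ∑ A ∈ F, (if ¬ Gd A (c + ∑ j : Fin k, ω j) then ∏ j : Fin k, p j (ω j) else 0) := by
        apply sum_le_sum
        intro ω hω
        have hpos := hnn ω hω
        have hterm : ∀ A ∈ F, 0 ≤ (if ¬ Gd A (c + ∑ j : Fin k, ω j) then ∏ j : Fin k, p j (ω j) else 0) := by
          intro A _
          split_ifs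
          · exact le_rfl
          · exact hpos
        by_cases hall : ∀ A ∈ F, Gd A (c + ∑ j : Fin k, ω j)
        · rw [if_neg (not_not.2 (hsub ω hω hall))]
          exact sum_nonneg hterm
        · push Not at hall
          obtain ⟨A, hA, hnot⟩ := hall
          have h6 := single_le_sum (f := fun A : Finset ℕ => (if ¬ Gd A (c + ∑ j : Fin k, ω j) then ∏ j : Fin k, p j (ω j) else 0)) hterm hA
          rw [if_pos hnot] at h6
          refine le_trans ?_ h6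
          split_ifs
          · exact hpos
          · exact le_rfl
    _ = ∑ A ∈ F, ∑ ω ∈ Fintype.piFinset (fun j : Fin k => s j), (if ¬ Gd A (c + ∑ j : Fin k, ω j) then ∏ j : Fin k, p j (ω j) else 0) := sum_comm
    _ ≤ ∑ _A ∈ F, 1 / L' ^ (U + T + 1) := sum_le_sum hone
    _ = F.card * (1 / L' ^ (U + T + 1)) := by rw [sum_const, nsmul_eq_mul]
    _ ≤ (k : ℝ) ^ T * (2 ^ (U + T + 1) / (k : ℝ) ^ (U + T + 1)) := by
        apply mul_le_mul (by exact_mod_cast hFc) _ (by positivity) (by positivity)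
        rw [div_le_div_iff₀ (by positivity) (by positivity), one_mul, ← mul_pow]
        apply pow_le_pow_left₀ hk0.le
        linarith
    _ ≤ (k : ℝ) ^ T * ((k : ℝ) / (k : ℝ) ^ (U + T + 1)) := by gcongr
    _ = 1 / (k : ℝ) ^ U := by
        rw [show U + T + 1 = U + (T + 1) by ring, pow_add, pow_succ]
        field_simp

end Pool.Agent.J4H77.TR
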