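import Pool.Agent.H373R2.T7.Fund
import Pool.Agent.H373R2.T7.LamZ2

set_option autoImplicit false

/-! The sieve model of the von Mangoldt function on short intervals. -/

namespace Pool.Agent.J4H77.TR

open Finset
open Pool.Agent.H373R2.T7

lemma nuB_le_one (Q : ℕ → ℕ → Prop) (p : ℕ) (h : ∀ a b, a < p → b < p → Q p a → Q p b → a = b) : nuB Q p ≤ 1 := by
  classical
  unfold nuB
  rw [card_le_one]
  intro a ha b hb
  rw [mem_filter, mem_range] at ha hb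
  exact h a b ha.1 hb.1 ha.2 hb.2

lemma one_le_nuB (Q : ℕ → ℕ → Prop) (p a : ℕ) (ha : a < p) (hq : Q p a) : 1 ≤ nuB Q p := by
  classical
  unfold nuB
  rw [Nat.one_le_iff_ne_zero, ← Nat.pos_iff_ne_zero, card_pos]
  exact ⟨a, mem_filter.2 ⟨mem_range.2 ha, hq⟩⟩

lemma perB_shift (t : ℕ) : PerB (fun p n => p ∣ n + t) 1 := by
  refine ⟨fun p n => ?_, fun p hp => ?_⟩
  · constructor
    · intro h
      have h1 : p ∣ p * (n / p) + (n % p + t) := by
        have : p * (n / p) + (n % p + t) = n + t := by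
          have := Nat.div_add_mod n p
          omega
        rw [this]
        exact h
      exact (Nat.dvd_add_right (dvd_mul_right _ _)).1 h1
    · intro h
      have : n + t = p * (n / p) + (n % p + t) := by
        have := Nat.div_add_mod n p
        omega
      show p ∣ n + t
      rw [this]
      exact (Nat.dvd_add_right (dvd_mul_right _ _)).2 h
  · apply nuB_le_one
    intro a b ha hb ha2 hb2
    have h1 : a + t ≡ b + t [MOD p] := by
      unfold Nat.ModEq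
      rw [Nat.mod_eq_zero_of_dvd ha2, Nat.mod_eq_zero_of_dvd hb2]
    have h2 : a ≡ b [MOD p] := Nat.ModEq.add_right_cancel' t h1
    exact Nat.ModEq.eq_of_lt_of_lt h2 ha hb

lemma nuB_shift (t p : ℕ) (hp : p.Prime) : nuB (fun p n => p ∣ n + t) p = 1 := by
  apply le_antisymm ((perB_shift t).few p hp)
  have hp0 := hp.pos
  apply one_le_nuB _ p ((p - t % p) % p) (Nat.mod_lt _ hp0)
  have h1 : t % p < p := Nat.mod_lt _ hp0
  have h2 : ((p - t % p) % p + t) ≡ 0 [MOD p] := by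
    have h3 : (p - t % p) % p + t ≡ (p - t % p) + t % p [MOD p] :=
      Nat.ModEq.add (Nat.mod_modEq _ _) (Nat.mod_modEq t p).symm
    have h4 : (p - t % p) + t % p = p := by omega
    rw [h4] at h3
    exact h3.trans (Nat.modEq_zero_iff_dvd.2 dvd_rfl)
  exact Nat.modEq_zero_iff_dvd.1 h2

lemma sum_lamz (Q : ℕ → ℕ → Prop) (z t y : ℕ) (hQ : ∀ p n, Q p n ↔ p ∣ n + t) (d : DecidablePred fun n : ℕ => ∀ p ∈ pz z, ¬ Q p n) :
    ∑ h ∈ Ioc 0 y, lamz z (t + h) = (Vz z)⁻¹ * ((((Icc 1 y).filter (fun n : ℕ => ∀ p ∈ pz z, ¬ Q p n)).card : ℕ) : ℝ) := by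
  have e3 : Ioc 0 y = Icc 1 y := by ext; simp [Nat.lt_iff_add_one_le]
  rw [e3]
  have e4 : ∀ h ∈ Icc 1 y, lamz z (t + h) = if ∀ p ∈ pz z, ¬ Q p h then (Vz z)⁻¹ else 0 := by
    intro h _
    unfold lamz
    have : (∀ p ∈ pz z, ¬ p ∣ t + h) ↔ (∀ p ∈ pz z, ¬ Q p h) := by
      simp only [hQ, add_comm t h]
    by_cases h5 : ∀ p ∈ pz z, ¬ Q p h
    · rw [if_pos h5, if_pos (this.2 h5)]
    · rw [if_neg h5, if_neg (fun h6 => h5 (this.1 h6))]
  rw [sum_congr rfl e4, ← sum_filter, sum_const, nsmul_eq_mul, mul_comm]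

lemma Vz_pos (z : ℕ) : 0 < Vz z := by
  unfold Vz
  apply prod_pos
  intro p hp
  have h2 : (2 : ℝ) ≤ p := by exact_mod_cast (mem_pz.1 hp).2.two_le
  have : 1 / (p : ℝ) ≤ 1 / 2 := one_div_le_one_div_of_le (by norm_num) h2
  linarith

open Classical in
/-- the sieve model on short intervals -/
theorem short (ε : ℝ) (hε : 0 < ε) (E : ℕ) : ∃ κ N₀ : ℕ, ∀ N : ℕ, N₀ ≤ N → ∀ z : ℕ, Real.log N ≤ z →
    (z : ℝ) ≤ Real.log N ^ E → ∀ t y : ℕ, Real.log N ^ κ ≤ y →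
    |∑ h ∈ Ioc 0 y, lamz z (t + h) - y| ≤ ε * y := by
  classical
  obtain ⟨K, x0, hK, h0⟩ := sys_fund 1 le_rfl (ε / 2) (by positivity)
  obtain ⟨n1, h1⟩ := Vz_inv_small E
  obtain ⟨n2, h2⟩ := ev_L' (2 / ε + x0 + 2)
  refine ⟨E * K + 2, n1 + n2 + 3, fun N hN z hz1 hz2 t y hy => ?_⟩
  have hL := h2 N (by omega)
  obtain ⟨L, hLd⟩ : ∃ L, L = Real.log (N : ℝ) := ⟨_, rfl⟩
  have hV := h1 N (by omega) z (by
    have : (1 : ℝ) ≤ z := by
      have h3 : (0 : ℝ) ≤ x0 := Nat.cast_nonneg _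
      have h4 : 0 < 2 / ε := by positivity
      linarith
    exact_mod_cast this) hz2
  rw [← hLd] at hL hz1 hz2 hV hy
  have hx0 : (0 : ℝ) ≤ x0 := Nat.cast_nonneg _
  have hε2 : 0 < 2 / ε := by positivity
  have hL2 : 2 ≤ L := by linarith
  have hL0 : 0 < L := by linarith
  have hzx : x0 ≤ z := by
    have : (x0 : ℝ) ≤ z := by linarith
    exact_mod_cast this
  have hVp := Vz_pos z
  have h3 := h0 (z ^ K) z hzx le_rfl (fun p n => p ∣ n + t) (perB_shift t) y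
  have e1 : ∏ p ∈ pz z, (1 - (nuB (fun p n => p ∣ n + t) p : ℝ) / p) = Vz z := by
    unfold Vz
    apply prod_congr rfl
    intro p hp
    rw [nuB_shift t p (mem_pz.1 hp).2, Nat.cast_one]
  rw [e1] at h3
  obtain ⟨c, e2, h3⟩ : ∃ c : ℝ, ∑ h ∈ Ioc 0 y, lamz z (t + h) = (Vz z)⁻¹ * c ∧
      |c - y * Vz z| ≤ ε / 2 * (y * Vz z) + √(((z ^ K : ℕ)) : ℝ) :=
    ⟨_, sum_lamz (fun p n => p ∣ n + t) z t y (fun _ _ => Iff.rfl) _, h3⟩
  rw [e2]
  have e4 : (Vz z)⁻¹ * c - y = (Vz z)⁻¹ * (c - y * Vz z) := by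
    field_simp
  rw [e4, abs_mul, abs_of_pos (inv_pos.2 hVp)]
  have e5 : √(((z ^ K : ℕ)) : ℝ) ≤ (L ^ E) ^ K := by
    rw [Real.sqrt_le_left (by positivity)]
    push_cast
    have hz0 : (0 : ℝ) ≤ z := Nat.cast_nonneg _
    have h5 : (z : ℝ) ^ K ≤ (L ^ E) ^ K := pow_le_pow_left₀ hz0 hz2 _
    have h6 : 1 ≤ (L ^ E) ^ K := by
      rw [← pow_mul]
      exact one_le_pow₀ (by linarith)
    nlinarith
  calc (Vz z)⁻¹ * |c - y * Vz z| ≤ (Vz z)⁻¹ * (ε / 2 * (y * Vz z) + √(((z ^ K : ℕ)) : ℝ)) :=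
        mul_le_mul_of_nonneg_left h3 (inv_pos.2 hVp).le
    _ = ε / 2 * y + (Vz z)⁻¹ * √(((z ^ K : ℕ)) : ℝ) := by
        field_simp
    _ ≤ ε / 2 * y + L * (L ^ E) ^ K := by
        gcongr
    _ ≤ ε / 2 * y + ε / 2 * y := by
        have h7 : L * (L ^ E) ^ K * (2 / ε) ≤ y := by
          calc L * (L ^ E) ^ K * (2 / ε) ≤ L * (L ^ E) ^ K * L := by
                apply mul_le_mul_of_nonneg_left _ (by positivity)
                linarith
            _ = L ^ (E * K + 2) := by rw [← pow_mul]; ring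
            _ ≤ y := hy
        have h8 : L * (L ^ E) ^ K * (2 / ε) = (L * (L ^ E) ^ K) * 2 / ε := by ring
        rw [h8, div_le_iff₀ hε] at h7
        linarith
    _ = ε * y := by ring

end Pool.Agent.J4H77.TR
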